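import Pool.Agent.Q30.GG.Ray

/-!
# The covers: free products of the finitary automorphisms and the directed automorphisms
-/

set_option autoImplicit false

open Classical

namespace Q30.GG

open Pool.Agent.Y462.SS Pool.Agent.Y524L Pool.Agent.Y331.SS Q30.FJ
open Pool.Agent.Y524S (Tm Vs F sec_Tm sec_F root_Tm sec_Tm_one mem_Tm_iff DiesN)
open Pool.Agent.Y110.FJ (GrP)

variable {X : Type}

/-- a system of admissible germs of automorphisms of the subtrees at rays -/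
structure Sys (V : ℕ → Set X) (P : ℕ → T X → (ℕ → X) → Prop) : Prop where
  one : ∀ n ξ, P n 1 ξ
  mul : ∀ n ξ (g h : T X), g ∈ Tm (Vs V n) → h ∈ Tm (Vs V n) → P n h ξ → P n g (img h ξ) →
    P n (g * h) ξ
  inv : ∀ n ξ (h : T X), h ∈ Tm (Vs V n) → P n h ξ → P n h⁻¹ (img h ξ)
  sec : ∀ n ξ (h : T X), h ∈ Tm (Vs V n) → P n h ξ → P (n + 1) (sec h (ξ 0)) (sh ξ)

variable {V : ℕ → Set X} {P : ℕ → T X → (ℕ → X) → Prop}

variable (V P) in
/-- the automorphisms of the `n`-th subtree directed along `ξ` with an admissible germ -/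
def Dr (n : ℕ) (ξ : ℕ → X) (d : T X) : Prop := d ∈ Tm (Vs V n) ∧ Off d ξ ∧ P n d ξ

theorem dr_one (hS : Sys V P) (n : ℕ) (ξ : ℕ → X) : Dr V P n ξ 1 :=
  ⟨one_mem _, off_one ξ, hS.one n ξ⟩

theorem dr_mul (hS : Sys V P) {n : ℕ} {ξ : ℕ → X} {d e : T X} (hd : Dr V P n ξ d)
    (he : Dr V P n (img d ξ) e) : Dr V P n ξ (e * d) :=
  ⟨mul_mem he.1 hd.1, off_mul hd.2.1 he.2.1, hS.mul n ξ e d he.1 hd.1 hd.2.2 he.2.2⟩

theorem dr_inv (hS : Sys V P) {n : ℕ} {ξ : ℕ → X} {d : T X} (hd : Dr V P n ξ d) :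
    Dr V P n (img d ξ) d⁻¹ :=
  ⟨inv_mem hd.1, off_inv hd.2.1, hS.inv n ξ d hd.1 hd.2.2⟩

theorem dr_sec (hS : Sys V P) {n : ℕ} {ξ : ℕ → X} {d : T X} (hd : Dr V P n ξ d) :
    Dr V P (n + 1) (sh ξ) (sec d (ξ 0)) :=
  ⟨sec_Tm hd.1 _, off_sec hd.2.1, hS.sec n ξ d hd.1 hd.2.2⟩

theorem dr_off {n : ℕ} {ξ : ℕ → X} {d : T X} (hd : Dr V P n ξ d) {x : X} (hx : x ≠ ξ 0) :
    sec d x ∈ F (Vs V (n + 1)) := ⟨off_zero hd.2.1 hx, sec_Tm hd.1 x⟩

/-- rays in the same orbit of the directed automorphisms -/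
def st (hS : Sys V P) (n : ℕ) : Setoid (ℕ → X) where
  r ξ η := ∃ d, Dr V P n ξ d ∧ img d ξ = η
  iseqv :=
    { refl := fun ξ => ⟨1, dr_one hS n ξ, img_one ξ⟩
      symm := by
        rintro ξ η ⟨d, hd, rfl⟩
        exact ⟨d⁻¹, dr_inv hS hd, img_inv d ξ⟩
      trans := by
        rintro ξ η ζ ⟨d, hd, rfl⟩ ⟨e, he, rfl⟩
        exact ⟨e * d, dr_mul hS hd he, img_mul e d ξ⟩ }

/-- the directed automorphisms that fix the ray -/
def Iso (hS : Sys V P) (n : ℕ) (ξ : ℕ → X) : Subgroup (T X) where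
  carrier := {d | Dr V P n ξ d ∧ img d ξ = ξ}
  one_mem' := ⟨dr_one hS n ξ, img_one ξ⟩
  mul_mem' := by
    rintro d e ⟨hd, hd'⟩ ⟨he, he'⟩
    exact ⟨dr_mul hS he (by rw [he']; exact hd), by rw [img_mul, he', hd']⟩
  inv_mem' := by
    rintro d ⟨hd, hd'⟩
    have h1 := dr_inv hS hd
    have h2 := img_inv d ξ
    rw [hd'] at h1 h2
    exact ⟨h1, h2⟩

/-- the type of orbits -/
abbrev Ob (hS : Sys V P) (n : ℕ) : Type := Quotient (st hS n)

/-- the orbit of a ray -/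
def cl (hS : Sys V P) (n : ℕ) (ξ : ℕ → X) : Ob hS n := Quotient.mk (st hS n) ξ

theorem cl_img (hS : Sys V P) {n : ℕ} {ξ : ℕ → X} {d : T X} (hd : Dr V P n ξ d) :
    cl hS n (img d ξ) = cl hS n ξ :=
  (Quotient.sound (s := st hS n) ⟨d, hd, rfl⟩).symm

theorem exists_cc (hS : Sys V P) (n : ℕ) (ξ : ℕ → X) :
    ∃ c, Dr V P n (cl hS n ξ).out c ∧ img c (cl hS n ξ).out = ξ :=
  Quotient.mk_out (s := st hS n) ξ

/-- a directed automorphism from the base ray of the orbit to `ξ` -/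
noncomputable def cc (hS : Sys V P) (n : ℕ) (ξ : ℕ → X) : T X := (exists_cc hS n ξ).choose

theorem cc_dr (hS : Sys V P) (n : ℕ) (ξ : ℕ → X) : Dr V P n (cl hS n ξ).out (cc hS n ξ) :=
  (exists_cc hS n ξ).choose_spec.1

theorem cc_img (hS : Sys V P) (n : ℕ) (ξ : ℕ → X) : img (cc hS n ξ) (cl hS n ξ).out = ξ :=
  (exists_cc hS n ξ).choose_spec.2

/-- the automorphism `c⁻¹ d c` of the base ray -/
noncomputable def mid (hS : Sys V P) (n : ℕ) (ξ : ℕ → X) (d : T X) : T X :=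
  (cc hS n (img d ξ))⁻¹ * d * cc hS n ξ

theorem mid_mem (hS : Sys V P) {n : ℕ} {ξ : ℕ → X} {d : T X} (hd : Dr V P n ξ d) :
    mid hS n ξ d ∈ Iso hS n (cl hS n ξ).out := by
  have h1 := cc_dr hS n ξ
  have h2 := cc_img hS n ξ
  have h3 := cc_dr hS n (img d ξ)
  have h4 := cc_img hS n (img d ξ)
  rw [cl_img hS hd] at h3 h4
  have h5 := dr_inv hS h3
  have h6 := img_inv (cc hS n (img d ξ)) (cl hS n ξ).out
  rw [h4] at h5 h6
  have h7 : Dr V P n (cl hS n ξ).out (d * cc hS n ξ) := dr_mul hS h1 (by rw [h2]; exact hd)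
  have h8 : img (d * cc hS n ξ) (cl hS n ξ).out = img d ξ := by rw [img_mul, h2]
  refine ⟨?_, ?_⟩
  · rw [mid, mul_assoc]
    exact dr_mul hS h7 (by rw [h8]; exact h5)
  · rw [mid, mul_assoc, img_mul, h8, h6]

theorem mid_mul (hS : Sys V P) {n : ℕ} {ξ : ℕ → X} {d e : T X} :
    mid hS n ξ (e * d) = mid hS n (img d ξ) e * mid hS n ξ d := by
  rw [mid, mid, mid, img_mul]
  group

/-- the free product of the isotropy groups -/
abbrev Un (hS : Sys V P) (n : ℕ) : Type :=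
  GrP (⊥ : SimpleGraph (Ob hS n)) (fun o => ↥(Iso hS n o.out))

/-- the covers -/
abbrev Fc (hS : Sys V P) (n : ℕ) : Type :=
  Monoid.Coprod (F (Vs V n)) (Monoid.Coprod (Un hS n) (FreeGroup (ℕ → X)))

/-- finitary automorphisms in the cover -/
noncomputable def fi (hS : Sys V P) (n : ℕ) (t : T X) : Fc hS n :=
  if h : t ∈ F (Vs V n) then Monoid.Coprod.inl ⟨t, h⟩ else 1

theorem fi_mem (hS : Sys V P) {n : ℕ} {t : T X} (h : t ∈ F (Vs V n)) :
    fi hS n t = Monoid.Coprod.inl ⟨t, h⟩ := by rw [fi, dif_pos h]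

theorem fi_mul (hS : Sys V P) {n : ℕ} {s t : T X} (hs : s ∈ F (Vs V n)) (ht : t ∈ F (Vs V n)) :
    fi hS n (s * t) = fi hS n s * fi hS n t := by
  rw [fi_mem hS hs, fi_mem hS ht, fi_mem hS (mul_mem hs ht), ← map_mul]
  rfl

theorem fi_one (hS : Sys V P) (n : ℕ) : fi hS n 1 = 1 := by
  rw [fi_mem hS (one_mem _)]
  exact map_one _

/-- isotropy groups in the cover -/
noncomputable def io (hS : Sys V P) (n : ℕ) (o : Ob hS n) (t : T X) : Fc hS n :=
  if h : t ∈ Iso hS n o.out then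
    Monoid.Coprod.inr (Monoid.Coprod.inl (GrP.of ⊥ (fun o => ↥(Iso hS n o.out)) o ⟨t, h⟩)) else 1

theorem io_mem (hS : Sys V P) {n : ℕ} {o : Ob hS n} {t : T X} (h : t ∈ Iso hS n o.out) :
    io hS n o t = Monoid.Coprod.inr (Monoid.Coprod.inl
      (GrP.of ⊥ (fun o => ↥(Iso hS n o.out)) o ⟨t, h⟩)) := by rw [io, dif_pos h]

theorem io_mul (hS : Sys V P) {n : ℕ} {o : Ob hS n} {s t : T X} (hs : s ∈ Iso hS n o.out)
    (ht : t ∈ Iso hS n o.out) : io hS n o (s * t) = io hS n o s * io hS n o t := by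
  rw [io_mem hS hs, io_mem hS ht, io_mem hS (mul_mem hs ht), ← map_mul, ← map_mul, ← map_mul]
  rfl

/-- the generator of the ray `ξ` -/
noncomputable def gen (hS : Sys V P) (n : ℕ) (ξ : ℕ → X) : Fc hS n :=
  Monoid.Coprod.inr (Monoid.Coprod.inr (FreeGroup.of ξ))

/-- the directed automorphism `d` from `ξ` to its image in the cover -/
noncomputable def jj (hS : Sys V P) (n : ℕ) (ξ : ℕ → X) (d : T X) : Fc hS n :=
  gen hS n (img d ξ) * io hS n (cl hS n ξ) (mid hS n ξ d) * (gen hS n ξ)⁻¹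

theorem jj_mul (hS : Sys V P) {n : ℕ} {ξ : ℕ → X} {d e : T X} (hd : Dr V P n ξ d)
    (he : Dr V P n (img d ξ) e) : jj hS n ξ (e * d) = jj hS n (img d ξ) e * jj hS n ξ d := by
  have h1 := mid_mem hS he
  have h2 := cl_img hS hd
  rw [h2] at h1
  rw [jj, jj, jj, mid_mul, h2, io_mul hS h1 (mid_mem hS hd), img_mul]
  group

theorem jj_one (hS : Sys V P) (n : ℕ) (ξ : ℕ → X) : jj hS n ξ 1 = 1 := by
  have h1 := jj_mul hS (n := n) (ξ := ξ) (d := 1) (e := 1) (dr_one hS n ξ) (dr_one hS n _)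
  rw [img_one, mul_one] at h1
  exact (mul_eq_left.1 h1.symm)

/-! ## the recursion -/

/-- the recursion on a directed automorphism -/
noncomputable def Wd (hS : Sys V P) (n : ℕ) (ξ : ℕ → X) (d : T X) : Wr X (Fc hS (n + 1)) :=
  ⟨fun x => if x = ξ 0 then jj hS (n + 1) (sh ξ) (sec d x) else fi hS (n + 1) (sec d x), root d⟩

theorem Wd_s_ray (hS : Sys V P) (n : ℕ) (ξ : ℕ → X) (d : T X) :
    (Wd hS n ξ d).s (ξ 0) = jj hS (n + 1) (sh ξ) (sec d (ξ 0)) := by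
  rw [Wd]
  exact if_pos rfl

theorem Wd_s_off (hS : Sys V P) (n : ℕ) (ξ : ℕ → X) (d : T X) {x : X} (hx : x ≠ ξ 0) :
    (Wd hS n ξ d).s x = fi hS (n + 1) (sec d x) := by
  rw [Wd]
  exact if_neg hx

theorem Wd_mul (hS : Sys V P) {n : ℕ} {ξ : ℕ → X} {d e : T X} (hd : Dr V P n ξ d)
    (he : Dr V P n (img d ξ) e) : Wd hS n ξ (e * d) = Wd hS n (img d ξ) e * Wd hS n ξ d := by
  apply Wr.ext
  · funext x
    rw [Wr.mul_s]
    change _ = (Wd hS n (img d ξ) e).s (root d x) * _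
    by_cases hx : x = ξ 0
    · subst hx
      rw [show root d (ξ 0) = img d ξ 0 from rfl, Wd_s_ray, Wd_s_ray, Wd_s_ray, sec_mul, sh_img,
        show root d (ξ 0) = img d ξ 0 from rfl]
      exact jj_mul hS (dr_sec hS hd) (by rw [← sh_img]; exact dr_sec hS he)
    · have h1 : root d x ≠ img d ξ 0 := fun h => hx ((root d).injective h)
      rw [Wd_s_off hS n ξ _ hx, Wd_s_off hS n ξ _ hx, Wd_s_off hS n _ _ h1, sec_mul]
      exact fi_mul hS (dr_off he h1) (dr_off hd hx)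
  · exact root_mul e d

theorem Wd_one (hS : Sys V P) (n : ℕ) (ξ : ℕ → X) : Wd hS n ξ 1 = 1 := by
  have h1 := Wd_mul hS (n := n) (ξ := ξ) (d := 1) (e := 1) (dr_one hS n ξ) (dr_one hS n _)
  rw [img_one, mul_one] at h1
  exact (mul_eq_left.1 h1.symm)

/-- the recursion on the finitary automorphisms -/
noncomputable def psF (hS : Sys V P) (n : ℕ) : F (Vs V n) →* Wr X (Fc hS (n + 1)) where
  toFun a := ⟨fun x => fi hS (n + 1) (sec a.1 x), root a.1⟩
  map_one' := by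
    apply Wr.ext
    · funext x
      change fi hS (n + 1) (sec 1 x) = 1
      rw [sec_one, fi_one]
    · exact root_one
  map_mul' a b := by
    apply Wr.ext
    · funext x
      change fi hS (n + 1) (sec (a.1 * b.1) x) = _
      rw [sec_mul]
      exact fi_mul hS (sec_F a.2 _) (sec_F b.2 _)
    · exact root_mul a.1 b.1

/-- the recursion on the isotropy groups -/
noncomputable def psI (hS : Sys V P) (n : ℕ) (o : Ob hS n) :
    ↥(Iso hS n o.out) →* Wr X (Fc hS (n + 1)) where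
  toFun b := Wd hS n o.out b.1
  map_one' := Wd_one hS n _
  map_mul' a b := by
    change Wd hS n o.out (a.1 * b.1) = _
    have h1 := Wd_mul hS (n := n) (ξ := o.out) (d := b.1) (e := a.1) b.2.1
      (by rw [b.2.2]; exact a.2.1)
    rw [b.2.2] at h1
    exact h1

/-- the recursion of the covers -/
noncomputable def ps (hS : Sys V P) (n : ℕ) : Fc hS n →* Wr X (Fc hS (n + 1)) :=
  Monoid.Coprod.lift (psF hS n) (Monoid.Coprod.lift
    (glift (Λ := ⊥) (A := fun o : Ob hS n => ↥(Iso hS n o.out)) (fun o => psI hS n o)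
      (fun _ _ h => absurd h (by simp)))
    (FreeGroup.lift fun ξ => Wd hS n (cl hS n ξ).out (cc hS n ξ)))

theorem ps_inl (hS : Sys V P) (n : ℕ) (a : F (Vs V n)) :
    ps hS n (Monoid.Coprod.inl a) = psF hS n a := by
  rw [ps, Monoid.Coprod.lift_apply_inl]

theorem ps_of (hS : Sys V P) (n : ℕ) (o : Ob hS n) (b : ↥(Iso hS n o.out)) :
    ps hS n (Monoid.Coprod.inr (Monoid.Coprod.inl
      (GrP.of ⊥ (fun o => ↥(Iso hS n o.out)) o b))) = Wd hS n o.out b.1 := by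
  rw [ps, Monoid.Coprod.lift_apply_inr, Monoid.Coprod.lift_apply_inl, glift_of]
  rfl

theorem ps_gen (hS : Sys V P) (n : ℕ) (ξ : ℕ → X) :
    ps hS n (gen hS n ξ) = Wd hS n (cl hS n ξ).out (cc hS n ξ) := by
  rw [ps, gen, Monoid.Coprod.lift_apply_inr, Monoid.Coprod.lift_apply_inr, FreeGroup.lift_apply_of]

theorem ps_io (hS : Sys V P) {n : ℕ} {o : Ob hS n} {t : T X} (h : t ∈ Iso hS n o.out) :
    ps hS n (io hS n o t) = Wd hS n o.out t := by
  rw [io_mem hS h, ps_of]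

theorem ps_jj (hS : Sys V P) {n : ℕ} {ξ : ℕ → X} {d : T X} (hd : Dr V P n ξ d) :
    ps hS n (jj hS n ξ d) = Wd hS n ξ d := by
  have hm := mid_mem hS hd
  have h1 := cc_dr hS n ξ
  have h2 := cc_img hS n ξ
  have h3 := cc_dr hS n (img d ξ)
  rw [cl_img hS hd] at h3
  rw [jj, map_mul, map_mul, map_inv, ps_gen, ps_gen, ps_io hS hm, cl_img hS hd, mul_inv_eq_iff_eq_mul]
  have h4 := Wd_mul hS (n := n) (ξ := (cl hS n ξ).out) (d := mid hS n ξ d)
    (e := cc hS n (img d ξ)) hm.1 (by rw [hm.2]; exact h3)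
  rw [hm.2] at h4
  have h5 := Wd_mul hS (n := n) (ξ := (cl hS n ξ).out) (d := cc hS n ξ) (e := d) h1
    (by rw [h2]; exact hd)
  rw [h2] at h5
  rw [← h4, ← h5]
  congr 1
  rw [mid]
  group

/-! ## the covers map to the tree automorphisms -/

/-- the homomorphism to the tree automorphisms -/
noncomputable def ta (hS : Sys V P) (n : ℕ) : Fc hS n →* T X :=
  Monoid.Coprod.lift (F (Vs V n)).subtype (Monoid.Coprod.lift
    (glift (Λ := ⊥) (A := fun o : Ob hS n => ↥(Iso hS n o.out)) (fun o => (Iso hS n o.out).subtype)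
      (fun _ _ h => absurd h (by simp)))
    (FreeGroup.lift fun ξ => cc hS n ξ))

theorem ta_inl (hS : Sys V P) (n : ℕ) (a : F (Vs V n)) :
    ta hS n (Monoid.Coprod.inl a) = a.1 := by
  rw [ta, Monoid.Coprod.lift_apply_inl]
  rfl

theorem ta_of (hS : Sys V P) (n : ℕ) (o : Ob hS n) (b : ↥(Iso hS n o.out)) :
    ta hS n (Monoid.Coprod.inr (Monoid.Coprod.inl
      (GrP.of ⊥ (fun o => ↥(Iso hS n o.out)) o b))) = b.1 := by
  rw [ta, Monoid.Coprod.lift_apply_inr, Monoid.Coprod.lift_apply_inl, glift_of]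
  rfl

theorem ta_gen (hS : Sys V P) (n : ℕ) (ξ : ℕ → X) : ta hS n (gen hS n ξ) = cc hS n ξ := by
  rw [ta, gen, Monoid.Coprod.lift_apply_inr, Monoid.Coprod.lift_apply_inr, FreeGroup.lift_apply_of]

theorem ta_fi (hS : Sys V P) {n : ℕ} {t : T X} (h : t ∈ F (Vs V n)) : ta hS n (fi hS n t) = t := by
  rw [fi_mem hS h, ta_inl]

theorem ta_jj (hS : Sys V P) {n : ℕ} {ξ : ℕ → X} {d : T X} (hd : Dr V P n ξ d) :
    ta hS n (jj hS n ξ d) = d := by
  rw [jj, map_mul, map_mul, map_inv, ta_gen, ta_gen, io_mem hS (mid_mem hS hd), ta_of]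
  change cc hS n (img d ξ) * mid hS n ξ d * (cc hS n ξ)⁻¹ = d
  rw [mid]
  group

theorem wmap_Wd (hS : Sys V P) {n : ℕ} {ξ : ℕ → X} {d : T X} (hd : Dr V P n ξ d) :
    wmap (ta hS (n + 1)) (Wd hS n ξ d) = toWr X d := by
  apply Wr.ext
  · funext x
    rw [wmap_s, toWr_s]
    by_cases hx : x = ξ 0
    · subst hx
      rw [Wd_s_ray, ta_jj hS (dr_sec hS hd)]
    · rw [Wd_s_off hS n ξ d hx, ta_fi hS (dr_off hd hx)]
  · rfl

theorem ta_comm (hS : Sys V P) (n : ℕ) :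
    (toWr X).comp (ta hS n) = (wmap (ta hS (n + 1))).comp (ps hS n) := by
  apply Monoid.Coprod.hom_ext
  · apply MonoidHom.ext
    intro a
    change toWr X (ta hS n (Monoid.Coprod.inl a)) =
      wmap (ta hS (n + 1)) (ps hS n (Monoid.Coprod.inl a))
    rw [ta_inl, ps_inl]
    apply Wr.ext
    · funext x
      exact (ta_fi hS (sec_F a.2 x)).symm
    · rfl
  · apply Monoid.Coprod.hom_ext
    · apply gext
      intro o b
      change toWr X (ta hS n (Monoid.Coprod.inr (Monoid.Coprod.inl _))) =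
        wmap (ta hS (n + 1)) (ps hS n (Monoid.Coprod.inr (Monoid.Coprod.inl _)))
      rw [ta_of, ps_of, wmap_Wd hS b.2.1]
    · apply FreeGroup.ext_hom
      intro ξ
      change toWr X (ta hS n (gen hS n ξ)) = wmap (ta hS (n + 1)) (ps hS n (gen hS n ξ))
      rw [ta_gen, ps_gen, wmap_Wd hS (cc_dr hS n ξ)]

theorem root_ta (hS : Sys V P) (n : ℕ) (γ : Fc hS n) : root (ta hS n γ) = (ps hS n γ).p :=
  congrArg Wr.p (DFunLike.congr_fun (ta_comm hS n) γ)

theorem sec_ta (hS : Sys V P) (n : ℕ) (γ : Fc hS n) (x : X) :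
    sec (ta hS n γ) x = ta hS (n + 1) ((ps hS n γ).s x) :=
  congrFun (congrArg Wr.s (DFunLike.congr_fun (ta_comm hS n) γ)) x

end Q30.GG
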