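import Pool.Agent.Q30.GG.Cov

/-!
# Every element of the covers is brought by the recursion to finitary or directed automorphisms
-/

set_option autoImplicit false

open Classical

namespace Q30.GG

open Pool.Agent.Y462.SS Pool.Agent.Y524L Pool.Agent.Y331.SS Q30.FJ
open Pool.Agent.Y524S (Tm Vs F sec_Tm sec_F root_Tm sec_Tm_one mem_Tm_iff DiesN S_WRS S_LIMN S_FV
  Vs_apply LvN LvN_closed mem_LvN secW_Tm)
open Pool.Agent.Y110.FJ (GrP ClosedE)

variable {X : Type} {V : ℕ → Set X} {P : ℕ → T X → (ℕ → X) → Prop}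

/-- finitary or directed -/
def Good (hS : Sys V P) (n : ℕ) (γ : Fc hS n) : Prop :=
  (∃ a, a ∈ F (Vs V n) ∧ γ = fi hS n a) ∨ ∃ ξ d, Dr V P n ξ d ∧ γ = jj hS n ξ d

/-- the elements which the recursion brings to finitary or directed automorphisms -/
inductive En (hS : Sys V P) : ∀ n, Fc hS n → Prop
  | good (n : ℕ) (γ : Fc hS n) : Good hS n γ → En hS n γ
  | step (n : ℕ) (γ : Fc hS n) : (∀ x, En hS (n + 1) ((ps hS n γ).s x)) → En hS n γ

theorem ps_fi (hS : Sys V P) {n : ℕ} {a : T X} (ha : a ∈ F (Vs V n)) :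
    ps hS n (fi hS n a) = ⟨fun x => fi hS (n + 1) (sec a x), root a⟩ := by
  rw [fi_mem hS ha, ps_inl]
  rfl

theorem good_Wd (hS : Sys V P) {n : ℕ} {ξ : ℕ → X} {d : T X} (hd : Dr V P n ξ d) (x : X) :
    Good hS (n + 1) ((Wd hS n ξ d).s x) := by
  by_cases hx : x = ξ 0
  · subst hx
    rw [Wd_s_ray]
    exact Or.inr ⟨_, _, dr_sec hS hd, rfl⟩
  · rw [Wd_s_off hS n ξ d hx]
    exact Or.inl ⟨_, dr_off hd hx, rfl⟩

theorem good_sec (hS : Sys V P) {n : ℕ} {γ : Fc hS n} (h : Good hS n γ) (x : X) :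
    Good hS (n + 1) ((ps hS n γ).s x) := by
  rcases h with ⟨a, ha, rfl⟩ | ⟨ξ, d, hd, rfl⟩
  · rw [ps_fi hS ha]
    exact Or.inl ⟨_, sec_F ha x, rfl⟩
  · rw [ps_jj hS hd]
    exact good_Wd hS hd x

theorem en_sec (hS : Sys V P) {n : ℕ} {γ : Fc hS n} (h : En hS n γ) (x : X) :
    En hS (n + 1) ((ps hS n γ).s x) := by
  cases h with
  | good _ _ h => exact En.good _ _ (good_sec hS h x)
  | step _ _ h => exact h x

theorem fin_fin (hS : Sys V P) {n : ℕ} {a b : T X} (ha : a ∈ F (Vs V n)) (hb : b ∈ F (Vs V n)) :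
    En hS n (fi hS n a * fi hS n b) := by
  rw [← fi_mul hS ha hb]
  exact En.good _ _ (Or.inl ⟨_, mul_mem ha hb, rfl⟩)

theorem fin_dir (hS : Sys V P) (k : ℕ) : ∀ (n : ℕ) (a : T X) (ξ : ℕ → X) (d : T X),
    a ∈ F (Vs V n) → IsDep k a → Dr V P n ξ d → En hS n (fi hS n a * jj hS n ξ d) := by
  induction k with
  | zero =>
    intro n a ξ d _ hk hd
    rw [isDep_zero] at hk
    rw [hk, fi_one, one_mul]
    exact En.good _ _ (Or.inr ⟨ξ, d, hd, rfl⟩)
  | succ k ih =>
    intro n a ξ d ha hk hd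
    refine En.step _ _ fun x => ?_
    rw [map_mul, Wr.mul_s, ps_jj hS hd, ps_fi hS ha]
    change En hS (n + 1) (fi hS (n + 1) (sec a (root d x)) * (Wd hS n ξ d).s x)
    by_cases hx : x = ξ 0
    · subst hx
      rw [Wd_s_ray]
      exact ih _ _ _ _ (sec_F ha _) (hk _) (dr_sec hS hd)
    · rw [Wd_s_off hS n ξ d hx]
      exact fin_fin hS (sec_F ha _) (dr_off hd hx)

theorem dir_fin (hS : Sys V P) (k : ℕ) : ∀ (n : ℕ) (a : T X) (ξ : ℕ → X) (d : T X),
    a ∈ F (Vs V n) → IsDep k a → Dr V P n ξ d → En hS n (jj hS n ξ d * fi hS n a) := by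
  induction k with
  | zero =>
    intro n a ξ d _ hk hd
    rw [isDep_zero] at hk
    rw [hk, fi_one, mul_one]
    exact En.good _ _ (Or.inr ⟨ξ, d, hd, rfl⟩)
  | succ k ih =>
    intro n a ξ d ha hk hd
    refine En.step _ _ fun x => ?_
    rw [map_mul, Wr.mul_s, ps_jj hS hd, ps_fi hS ha]
    change En hS (n + 1) ((Wd hS n ξ d).s (root a x) * fi hS (n + 1) (sec a x))
    by_cases hx : root a x = ξ 0
    · rw [hx, Wd_s_ray]
      exact ih _ _ _ _ (sec_F ha _) (hk _) (dr_sec hS hd)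
    · rw [Wd_s_off hS n ξ d hx]
      exact fin_fin hS (dr_off hd hx) (sec_F ha _)

theorem good_fi (hS : Sys V P) {n : ℕ} {γ : Fc hS n} {a : T X} (h : Good hS n γ)
    (ha : a ∈ F (Vs V n)) : En hS n (γ * fi hS n a) := by
  rcases h with ⟨b, hb, rfl⟩ | ⟨ξ, d, hd, rfl⟩
  · exact fin_fin hS hb ha
  · obtain ⟨k, hk⟩ := ha.1
    exact dir_fin hS k n a ξ d ha hk hd

theorem dir_dir (hS : Sys V P) (m : ℕ) : ∀ (n : ℕ) (ξ : ℕ → X) (d : T X) (ζ : ℕ → X) (e : T X),
    Dr V P n ξ d → Dr V P n ζ e → img e ζ m ≠ ξ m → En hS n (jj hS n ξ d * jj hS n ζ e) := by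
  have key : ∀ (n : ℕ) (ξ : ℕ → X) (d : T X) (ζ : ℕ → X) (e : T X), Dr V P n ξ d →
      Dr V P n ζ e → (img e ζ 0 = ξ 0 → En hS (n + 1)
        (jj hS (n + 1) (sh ξ) (sec d (ξ 0)) * jj hS (n + 1) (sh ζ) (sec e (ζ 0)))) →
      En hS n (jj hS n ξ d * jj hS n ζ e) := by
    intro n ξ d ζ e hd he h
    refine En.step _ _ fun x => ?_
    rw [map_mul, Wr.mul_s, ps_jj hS hd, ps_jj hS he]
    change En hS (n + 1) ((Wd hS n ξ d).s (root e x) * (Wd hS n ζ e).s x)
    by_cases hx : x = ζ 0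
    · subst hx
      rw [Wd_s_ray]
      by_cases h0 : root e (ζ 0) = ξ 0
      · rw [h0, Wd_s_ray]
        exact h h0
      · rw [Wd_s_off hS n ξ d h0]
        obtain ⟨k, hk⟩ := (dr_off hd h0).1
        exact fin_dir hS k _ _ _ _ (dr_off hd h0) hk (dr_sec hS he)
    · rw [Wd_s_off hS n ζ e hx]
      exact good_fi hS (good_Wd hS hd _) (dr_off he hx)
  induction m with
  | zero =>
    intro n ξ d ζ e hd he hne
    exact key n ξ d ζ e hd he fun h => absurd h hne
  | succ m ih =>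
    intro n ξ d ζ e hd he hne
    refine key n ξ d ζ e hd he fun _ => ih _ _ _ _ _ (dr_sec hS hd) (dr_sec hS he) ?_
    exact hne

theorem good_good (hS : Sys V P) {n : ℕ} {α β : Fc hS n} (ha : Good hS n α) (hb : Good hS n β) :
    En hS n (α * β) := by
  rcases hb with ⟨b, hb, rfl⟩ | ⟨ζ, e, he, rfl⟩
  · exact good_fi hS ha hb
  · rcases ha with ⟨a, ha, rfl⟩ | ⟨ξ, d, hd, rfl⟩
    · obtain ⟨k, hk⟩ := ha.1
      exact fin_dir hS k _ _ _ _ ha hk he
    · by_cases h : img e ζ = ξ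
      · subst h
        rw [← jj_mul hS he hd]
        exact En.good _ _ (Or.inr ⟨_, _, dr_mul hS he hd, rfl⟩)
      · obtain ⟨m, hm⟩ := Function.ne_iff.1 h
        exact dir_dir hS m n ξ d ζ e hd he hm

theorem good_en (hS : Sys V P) {n : ℕ} {β : Fc hS n} (hb : En hS n β) :
    ∀ α : Fc hS n, Good hS n α → En hS n (α * β) := by
  induction hb with
  | good n β h => exact fun α ha => good_good hS ha h
  | step n β _ ih =>
    intro α ha
    refine En.step _ _ fun x => ?_
    rw [map_mul, Wr.mul_s]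
    exact ih x _ (good_sec hS ha _)

theorem en_mul (hS : Sys V P) {n : ℕ} {α : Fc hS n} (ha : En hS n α) :
    ∀ β : Fc hS n, En hS n β → En hS n (α * β) := by
  induction ha with
  | good n α h => exact fun β hb => good_en hS hb α h
  | step n α _ ih =>
    intro β hb
    refine En.step _ _ fun x => ?_
    rw [map_mul, Wr.mul_s]
    exact ih _ _ (en_sec hS hb x)

theorem Wd_inv (hS : Sys V P) {n : ℕ} {ξ : ℕ → X} {d : T X} (hd : Dr V P n ξ d) :
    (Wd hS n ξ d)⁻¹ = Wd hS n (img d ξ) d⁻¹ := by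
  rw [inv_eq_iff_mul_eq_one, mul_eq_one_iff_eq_inv, eq_comm, inv_eq_iff_mul_eq_one,
    ← Wd_mul hS hd (dr_inv hS hd), inv_mul_cancel, Wd_one]

theorem en_all (hS : Sys V P) (n : ℕ) (γ : Fc hS n) : En hS n γ := by
  have h1 : ∀ (o : Ob hS n) (b : ↥(Iso hS n o.out)), En hS n (Monoid.Coprod.inr
      (Monoid.Coprod.inl (GrP.of ⊥ (fun o : Ob hS n => ↥(Iso hS n o.out)) o b))) := by
    intro o b
    refine En.step _ _ fun x => ?_
    rw [ps_of]
    exact En.good _ _ (good_Wd hS b.2.1 x)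
  have one : En hS n 1 := by
    rw [← fi_one hS n]
    exact En.good _ _ (Or.inl ⟨1, one_mem _, rfl⟩)
  induction γ using Monoid.Coprod.induction_on with
  | inl a =>
    rw [show (Monoid.Coprod.inl a : Fc hS n) = fi hS n a.1 from (fi_mem hS a.2).symm]
    exact En.good _ _ (Or.inl ⟨a.1, a.2, rfl⟩)
  | inr u =>
    induction u using Monoid.Coprod.induction_on with
    | inl a =>
      obtain ⟨y, rfl⟩ := QuotientGroup.mk_surjective a
      induction y using Monoid.CoprodI.induction_on with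
      | one => rw [QuotientGroup.mk_one, map_one, map_one]; exact one
      | of o b => exact h1 o b
      | mul x y hx hy =>
        rw [QuotientGroup.mk_mul, map_mul, map_mul]
        exact en_mul hS hx _ hy
    | inr w =>
      induction w using FreeGroup.induction_on with
      | C1 => rw [map_one, map_one]; exact one
      | of ξ =>
        refine En.step _ _ fun x => ?_
        rw [show (Monoid.Coprod.inr (Monoid.Coprod.inr (FreeGroup.of ξ)) : Fc hS n) =
          gen hS n ξ from rfl, ps_gen]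
        exact En.good _ _ (good_Wd hS (cc_dr hS n ξ) x)
      | inv_of ξ _ =>
        refine En.step _ _ fun x => ?_
        rw [map_inv, map_inv, show (Monoid.Coprod.inr (Monoid.Coprod.inr (FreeGroup.of ξ)) :
          Fc hS n) = gen hS n ξ from rfl, map_inv, ps_gen, Wd_inv hS (cc_dr hS n ξ)]
        exact En.good _ _ (good_Wd hS (dr_inv hS (cc_dr hS n ξ)) x)
      | mul x y hx hy =>
        rw [map_mul, map_mul]
        exact en_mul hS hx _ hy
    | mul a b iha ihb =>
      rw [map_mul]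
      exact en_mul hS iha _ ihb
  | mul a b iha ihb => exact en_mul hS iha _ ihb

/-! ## the kernel -/

theorem ta_of_dies (hS : Sys V P) {n : ℕ} {γ : Fc hS n} (hγ : DiesN (ps hS) n γ) :
    ta hS n γ = 1 := by
  induction hγ with
  | one n => exact map_one _
  | step n γ hp _ ih =>
    apply T_ext
    · rw [root_ta hS, hp, root_one]
    · intro x
      rw [sec_ta hS, ih x, sec_one]

theorem dies_of_ta (hS : Sys V P) {n : ℕ} {γ : Fc hS n} (he : En hS n γ)
    (h1 : ta hS n γ = 1) : DiesN (ps hS) n γ := by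
  induction he with
  | good n γ h =>
    rcases h with ⟨a, ha, rfl⟩ | ⟨ξ, d, hd, rfl⟩
    · rw [ta_fi hS ha] at h1
      rw [h1, fi_one]
      exact DiesN.one n
    · rw [ta_jj hS hd] at h1
      rw [h1, jj_one]
      exact DiesN.one n
  | step n γ _ ih =>
    apply DiesN.step
    · rw [← root_ta hS, h1, root_one]
    · intro x
      apply ih
      rw [← sec_ta hS, h1, sec_one]

theorem Wd_supp (hS : Sys V P) {n : ℕ} {ξ : ℕ → X} {d : T X} (hd : Dr V P n ξ d) {x : X}
    (hx : x ∉ Vs V n 0) : (Wd hS n ξ d).p x = x ∧ (Wd hS n ξ d).s x = 1 := by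
  refine ⟨root_Tm hd.1 hx, ?_⟩
  by_cases h : x = ξ 0
  · subst h
    rw [Wd_s_ray, sec_Tm_one hd.1 hx, jj_one]
  · rw [Wd_s_off hS n ξ d h, sec_Tm_one hd.1 hx, fi_one]

theorem ps_supp (hS : Sys V P) (n : ℕ) (γ : Fc hS n) (x : X) (hx : x ∉ Vs V n 0) :
    (ps hS n γ).p x = x ∧ (ps hS n γ).s x = 1 := by
  have hmul : ∀ a b : Fc hS n, ((ps hS n a).p x = x ∧ (ps hS n a).s x = 1) →
      ((ps hS n b).p x = x ∧ (ps hS n b).s x = 1) →
      ((ps hS n (a * b)).p x = x ∧ (ps hS n (a * b)).s x = 1) := by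
    intro a b ha hb
    rw [map_mul, Wr.mul_p, Wr.mul_s, Equiv.Perm.mul_apply, hb.1, hb.2, ha.1, ha.2, one_mul]
    exact ⟨rfl, rfl⟩
  induction γ using Monoid.Coprod.induction_on with
  | inl a =>
    rw [ps_inl]
    refine ⟨root_Tm a.2.2 hx, ?_⟩
    change fi hS (n + 1) (sec a.1 x) = 1
    rw [sec_Tm_one a.2.2 hx, fi_one]
  | inr u =>
    induction u using Monoid.Coprod.induction_on with
    | inl a =>
      obtain ⟨y, rfl⟩ := QuotientGroup.mk_surjective a
      induction y using Monoid.CoprodI.induction_on with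
      | one =>
        rw [QuotientGroup.mk_one, map_one, map_one, map_one]
        exact ⟨rfl, rfl⟩
      | of o b =>
        have h1 := ps_of hS n o b
        have h2 := Wd_supp hS b.2.1 hx
        rw [← h1] at h2
        exact h2
      | mul a b iha ihb =>
        rw [QuotientGroup.mk_mul, map_mul, map_mul]
        exact hmul _ _ iha ihb
    | inr w =>
      induction w using FreeGroup.induction_on with
      | C1 => rw [map_one, map_one, map_one]; exact ⟨rfl, rfl⟩
      | of ξ =>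
        rw [show (Monoid.Coprod.inr (Monoid.Coprod.inr (FreeGroup.of ξ)) : Fc hS n) =
          gen hS n ξ from rfl, ps_gen]
        exact Wd_supp hS (cc_dr hS n ξ) hx
      | inv_of ξ _ =>
        rw [map_inv, map_inv, show (Monoid.Coprod.inr (Monoid.Coprod.inr (FreeGroup.of ξ)) :
          Fc hS n) = gen hS n ξ from rfl, map_inv, ps_gen, Wd_inv hS (cc_dr hS n ξ)]
        exact Wd_supp hS (dr_inv hS (cc_dr hS n ξ)) hx
      | mul a b iha ihb =>
        rw [map_mul, map_mul]
        exact hmul _ _ iha ihb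
    | mul a b iha ihb =>
      rw [map_mul]
      exact hmul _ _ iha ihb
  | mul a b iha ihb => exact hmul _ _ iha ihb

/-- the group generated by the finitary and the directed automorphisms -/
noncomputable def G1 (hS : Sys V P) (n : ℕ) : Subgroup (T X) := (ta hS n).range

theorem G1_closed {C : ∀ (G : Type) [Group G], Prop} (hC : ClosedE C)
    (hV : ∀ n, (V n).Finite) (hS : Sys V P) (hI : ∀ n ξ, C (Iso hS n ξ)) (n : ℕ) :
    C (G1 hS n) := by
  have hVs : ∀ n i, (Vs V n i).Finite := fun n i => by rw [Vs_apply]; exact hV _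
  have hG : ∀ n, C (Fc hS n) := fun n =>
    hC.base.coprod _ _ (Pool.Agent.Y473.SP.t_fv C hC.base X (Vs V n) (hVs n))
      (hC.base.coprod _ _ (gp C hC _ _ _ fun _ => hI n _) (Pool.Agent.Y179.SS.t_free C hC.base _))
  have h1 : C (Fc hS n ⧸ (ta hS n).ker) := by
    refine Pool.Agent.Y331.SPL.t_limn Pool.Agent.Y907.SP.t_wrs C hC.base X (fun n => Vs V n 0)
      (fun n => hVs n 0) (Fc hS) (ps hS) (fun n γ x hx => ps_supp hS n γ x hx) hG n _ ?_
    intro γ
    rw [MonoidHom.mem_ker]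
    exact ⟨fun h2 => dies_of_ta hS (en_all hS n γ) h2, fun h2 => ta_of_dies hS h2⟩
  exact hC.base.of_injective _ _ (QuotientGroup.quotientKerEquivRange (ta hS n)).symm.toMonoidHom
    (QuotientGroup.quotientKerEquivRange (ta hS n)).symm.injective h1

end Q30.GG
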