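import Pool.Agent.Q30.GG.Evt

/-!
# Isotropy groups, and automorphisms with finitely many singular rays
-/

set_option autoImplicit false

open Classical

namespace Q30.GG

open Pool.Agent.Y462.SS Pool.Agent.Y524L Pool.Agent.Y331.SS Q30.FJ
open Pool.Agent.Y524S (Tm Vs F sec_Tm sec_F root_Tm sec_Tm_one mem_Tm_iff DiesN S_WRS S_LIMN S_FV
  Vs_apply LvN LvN_closed mem_LvN secW_Tm)
open Pool.Agent.Y110.FJ (GrP ClosedE)

variable {X : Type} {V : ℕ → Set X} {P : ℕ → T X → (ℕ → X) → Prop}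

theorem isDep_le {k l : ℕ} {g : T X} (h : k ≤ l) (hg : IsDep k g) : IsDep l g := by
  induction h with
  | refl => exact hg
  | step _ ih => exact isDep_mono ih

/-- an automorphism all of whose sections have finite depth has finite depth -/
theorem fn_of_sec (hV : (V 0).Finite) {g : T X} (hg : g ∈ Tm V) (h : ∀ x, sec g x ∈ Fn X) :
    g ∈ Fn X := by
  choose f hf using h
  obtain ⟨N, hN⟩ := (hV.image f).bddAbove
  refine ⟨N + 1, fun x => ?_⟩
  by_cases hx : x ∈ V 0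
  · exact isDep_le (hN (Set.mem_image_of_mem f hx)) (hf x)
  · rw [sec_Tm_one hg hx]
    exact isDep_one N

theorem fn_of_near (k : ℕ) : ∀ (V : ℕ → Set X) (_ : ∀ n, (V n).Finite) (ξ : ℕ → X) (d : T X),
    d ∈ Tm V → Off d ξ → secW d (pre ξ k) = 1 → d ∈ Fn X := by
  induction k with
  | zero =>
    intro V _ ξ d _ _ h
    have h1 : d = 1 := h
    rw [h1]
    exact one_mem _
  | succ k ih =>
    intro V hV ξ d hd ho h
    refine fn_of_sec (hV 0) hd fun x => ?_
    by_cases hx : x = ξ 0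
    · subst hx
      exact ih (sh V) (fun n => hV (n + 1)) (sh ξ) _ (sec_Tm hd _) (off_sec ho) h
    · exact off_zero ho hx

/-- the isotropy groups -/
theorem iso_closed {C : ∀ (G : Type) [Group G], Prop} (hC : ClosedE C) (hV : ∀ n, (V n).Finite)
    (hS : Sys V P) (n : ℕ) (ξ : ℕ → X) (Q : Type) [Group Q] (hQ : C Q) (φ : Iso hS n ξ →* Q)
    (hφ : ∀ d, φ d = 1 → ∃ k, secW d.1 (pre ξ k) = 1) : C (Iso hS n ξ) := by
  have hVs : ∀ i, (Vs V n i).Finite := fun i => by rw [Vs_apply]; exact hV _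
  refine loc_fin hC (Iso hS n ξ) φ.ker ?_ ?_
  · intro E hE hEK
    have h1 : ∀ d ∈ E, ∃ k, IsDep k d.1 := by
      intro d hd
      obtain ⟨k, hk⟩ := hφ d (hEK hd)
      exact fn_of_near k (Vs V n) hVs ξ d.1 d.2.1.1 d.2.1.2.1 hk
    choose! f hf using h1
    obtain ⟨N, hN⟩ := (hE.image f).bddAbove
    let D : Subgroup (Iso hS n ξ) :=
      { carrier := {d | IsDep N d.1}
        one_mem' := isDep_one N
        mul_mem' := fun ha hb => isDep_mul ha hb
        inv_mem' := fun ha => isDep_inv ha }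
    have h2 : Subgroup.closure E ≤ D := by
      rw [Subgroup.closure_le]
      intro d hd
      exact isDep_le (hN (Set.mem_image_of_mem f hd)) (hf d hd)
    have h3 := Pool.Agent.Y473.SP.finite_dep N (Vs V n) hVs
    refine Finite.of_injective (fun d : ↥(Subgroup.closure E) =>
      (⟨d.1.1, h2 d.2, d.1.2.1.1⟩ : {g : T X // IsDep N g ∧ g ∈ Tm (Vs V n)})) ?_
    intro a b hab
    exact Subtype.ext (Subtype.ext (congrArg
      (fun z : {g : T X // IsDep N g ∧ g ∈ Tm (Vs V n)} => z.1) hab))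
  · exact hC.base.of_injective _ _ (QuotientGroup.kerLift φ) (QuotientGroup.kerLift_injective φ) hQ

/-! ## the levels -/

theorem G1_le_Tm (hS : Sys V P) (n : ℕ) : G1 hS n ≤ Tm (Vs V n) := by
  rintro _ ⟨γ, rfl⟩
  rw [mem_Tm_iff]
  have h1 : ∀ (n : ℕ) (γ : Fc hS n), En hS n γ → ta hS n γ ∈ Tm (Vs V n) := by
    intro n γ h
    induction h with
    | good n γ h =>
      rcases h with ⟨a, ha, rfl⟩ | ⟨ξ, d, hd, rfl⟩
      · rw [ta_fi hS ha]; exact ha.2
      · rw [ta_jj hS hd]; exact hd.1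
    | step n γ _ ih =>
      rw [mem_Tm_iff]
      refine ⟨fun x hx => ?_, fun x => ?_⟩
      · have h2 := ps_supp hS n γ x hx
        rw [root_ta, sec_ta, h2.1, h2.2, map_one]
        exact ⟨rfl, rfl⟩
      · rw [sec_ta]
        exact ih x
  exact mem_Tm_iff.1 (h1 n γ (en_all hS n γ))

theorem sec_mem_G1 (hS : Sys V P) {n : ℕ} {g : T X} (hg : g ∈ G1 hS n) (x : X) :
    sec g x ∈ G1 hS (n + 1) := by
  obtain ⟨γ, rfl⟩ := hg
  rw [sec_ta hS]
  exact ⟨_, rfl⟩

theorem LvN_le_succ (hS : Sys V P) (N n : ℕ) :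
    LvN V (G1 hS) N n ≤ LvN V (G1 hS) (N + 1) n := by
  induction N generalizing n with
  | zero => exact fun g hg => ⟨fun x hx => ⟨root_Tm (G1_le_Tm hS n hg) hx,
      sec_Tm_one (G1_le_Tm hS n hg) hx⟩, fun x => sec_mem_G1 hS hg x⟩
  | succ N ih => exact fun g hg => ⟨hg.1, fun x => ih (n + 1) (hg.2 x)⟩

theorem LvN_mono (hS : Sys V P) (n : ℕ) : Monotone fun N => LvN V (G1 hS) N n :=
  monotone_nat_of_le_succ fun N => LvN_le_succ hS N n

theorem mem_G1_of_F (hS : Sys V P) {n : ℕ} {g : T X} (hg : g ∈ F (Vs V n)) : g ∈ G1 hS n :=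
  ⟨fi hS n g, ta_fi hS hg⟩

theorem mem_G1_of_Dr (hS : Sys V P) {n : ℕ} {ξ : ℕ → X} {g : T X} (hg : Dr V P n ξ g) :
    g ∈ G1 hS n := ⟨jj hS n ξ g, ta_jj hS hg⟩

/-- finite depth below every word which is not a prefix of one of the rays in `R` -/
def FinS (R : Finset (ℕ → X)) (g : T X) : Prop :=
  ∀ v : List X, (∀ ρ ∈ R, ¬ OnRay ρ v) → ∃ k, DepthAt g.1 v k

theorem isDep_secW (v : List X) : ∀ (g : T X) (k : ℕ), DepthAt g.1 v k → IsDep k (secW g v) := by
  induction v with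
  | nil => exact fun g k h => isDep_of_depthAt h
  | cons x v ih => exact fun g k h => ih (sec g x) k (depthAt_sec h)

theorem finS_sec {R : Finset (ℕ → X)} {g : T X} (h : FinS R g) (x : X) :
    FinS (shR R x) (sec g x) := by
  intro v hv
  obtain ⟨k, hk⟩ := h (x :: v) (by
    intro ρ hρ hr
    rw [onRay_cons] at hr
    exact hv (sh ρ) (Finset.mem_image.2 ⟨ρ, Finset.mem_filter.2 ⟨hρ, hr.1.symm⟩, rfl⟩) hr.2)
  exact ⟨k, depthAt_sec hk⟩

theorem finS_empty {g : T X} (h : FinS ∅ g) : g ∈ Fn X := by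
  obtain ⟨k, hk⟩ := h [] (fun ρ hρ => absurd hρ (Finset.notMem_empty ρ))
  exact ⟨k, isDep_of_depthAt hk⟩

theorem finS_mono {R S : Finset (ℕ → X)} (hRS : R ⊆ S) {g : T X}
    (h : FinS R g) : FinS S g := fun v hv => h v fun ρ hρ => hv ρ (hRS hρ)

theorem finS_single {ρ : ℕ → X} {g : T X} (h : FinS {ρ} g) : Off g ρ := by
  intro n x hx
  obtain ⟨k, hk⟩ := h (pre ρ n ++ [x]) (by
    intro σ hσ hr
    rw [Finset.mem_singleton] at hσ
    subst hσ
    rw [onRay_iff, List.length_append, length_pre, List.length_singleton, pre_snoc] at hr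
    have h1 := List.append_cancel_left hr
    exact hx (List.singleton_injective h1))
  have h1 := isDep_secW _ g k hk
  rw [secW_append] at h1
  exact ⟨k, h1⟩

/-- the ray `x ξ` -/
def consR (x : X) (ξ : ℕ → X) : ℕ → X
  | 0 => x
  | n + 1 => ξ n

theorem sh_consR (x : X) (ξ : ℕ → X) : sh (consR x ξ) = ξ := rfl

theorem exists_level (hV : ∀ n, (V n).Finite) (hS : Sys V P) (N : ℕ) :
    ∀ (n : ℕ) (R : Finset (ℕ → X)) (g : T X), R.card = N → g ∈ Tm (Vs V n) → (∀ ξ, P n g ξ) →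
      FinS R g → ∃ m, g ∈ LvN V (G1 hS) m n := by
  have hVs : ∀ n i, (Vs V n i).Finite := fun n i => by rw [Vs_apply]; exact hV _
  have comb : ∀ (n : ℕ) (g : T X), g ∈ Tm (Vs V n) →
      (∀ x, ∃ m, sec g x ∈ LvN V (G1 hS) m (n + 1)) → ∃ m, g ∈ LvN V (G1 hS) m n := by
    intro n g hT hg
    choose f hf using hg
    obtain ⟨M, hM⟩ := ((hVs n 0).image f).bddAbove
    refine ⟨M + 1, fun x hx => ⟨root_Tm hT hx, sec_Tm_one hT hx⟩, fun x => ?_⟩
    by_cases hx : x ∈ Vs V n 0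
    · exact LvN_mono hS (n + 1) (hM (Set.mem_image_of_mem f hx)) (hf x)
    · rw [sec_Tm_one hT hx]
      exact one_mem _
  have hP : ∀ (n : ℕ) (g : T X), g ∈ Tm (Vs V n) → (∀ ξ, P n g ξ) → ∀ x ξ, P (n + 1) (sec g x) ξ :=
    fun n g hT hg x ξ => hS.sec n (consR x ξ) g hT (hg _)
  induction N using Nat.strong_induction_on with
  | _ N ih =>
    intro n R g hR hT hPg hg
    by_cases h1 : ∃ ρ ∈ R, ∃ ρ' ∈ R, ρ ≠ ρ'
    · obtain ⟨ρ, hρ, ρ', hρ', hne⟩ := h1
      obtain ⟨t, ht⟩ := Function.ne_iff.1 hne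
      clear hne
      induction t generalizing n R g ρ ρ' with
      | zero =>
        refine comb n g hT fun x => ?_
        refine ih (shR R x).card ?_ _ _ _ rfl (sec_Tm hT x) (hP n g hT hPg x) (finS_sec hg x)
        rw [← hR]
        by_contra h2
        rw [not_lt] at h2
        have h3 := all_of_card_shR h2
        exact ht ((h3 ρ hρ).trans (h3 ρ' hρ').symm)
      | succ t iht =>
        refine comb n g hT fun x => ?_
        by_cases h2 : (shR R x).card < R.card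
        · exact ih (shR R x).card (hR ▸ h2) _ _ _ rfl (sec_Tm hT x) (hP n g hT hPg x)
            (finS_sec hg x)
        · rw [not_lt] at h2
          have h3 := all_of_card_shR h2
          refine iht (n + 1) (shR R x) (sec g x) ?_ (sec_Tm hT x) (hP n g hT hPg x) (finS_sec hg x)
            (sh ρ) ?_ (sh ρ') ?_ ht
          · rw [← hR]
            exact le_antisymm (card_shR_le R x) h2
          · exact Finset.mem_image.2 ⟨ρ, Finset.mem_filter.2 ⟨hρ, h3 ρ hρ⟩, rfl⟩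
          · exact Finset.mem_image.2 ⟨ρ', Finset.mem_filter.2 ⟨hρ', h3 ρ' hρ'⟩, rfl⟩
    · refine ⟨0, ?_⟩
      change g ∈ G1 hS n
      by_cases h2 : R = ∅
      · rw [h2] at hg
        exact mem_G1_of_F hS ⟨finS_empty hg, hT⟩
      · obtain ⟨ρ, hρ⟩ := Finset.nonempty_iff_ne_empty.2 h2
        have h3 : R ⊆ {ρ} := by
          intro ρ' hρ'
          rw [Finset.mem_singleton]
          by_contra h4
          exact h1 ⟨ρ', hρ', ρ, hρ, h4⟩
        exact mem_G1_of_Dr hS (ξ := ρ) ⟨hT, finS_single (finS_mono h3 hg), hPg ρ⟩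

/-- **the theorem for a system of germs** -/
theorem sys_main {C : ∀ (G : Type) [Group G], Prop} (hC : ClosedE C) (hV : ∀ n, (V n).Finite)
    (hS : Sys V P) (hI : ∀ n ξ, C (Iso hS n ξ)) (G : Subgroup (T X)) (hT : G ≤ Tm V)
    (hP : ∀ g ∈ G, ∀ ξ, P 0 g ξ) (hF : ∀ g ∈ G, ∃ R, FinS R g) : C G := by
  refine Pool.Agent.Y430.SS.t_union C hC.base G
    (fun N => (LvN V (G1 hS) N 0).comap G.subtype) ?_ ?_ ?_
  · intro M N hMN g hg
    exact LvN_mono hS 0 hMN hg
  · intro g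
    obtain ⟨R, hR⟩ := hF g.1 g.2
    exact exists_level hV hS R.card 0 R g.1 rfl (hT g.2) (hP g.1 g.2) hR
  · intro N
    refine hC.base.of_injective _ (LvN V (G1 hS) N 0)
      { toFun := fun g => ⟨g.1.1, g.2⟩, map_one' := rfl, map_mul' := fun _ _ => rfl } ?_
      (LvN_closed Pool.Agent.Y907.SP.t_wrs C hC.base hV (G1 hS) (fun n => G1_closed hC hV hS hI n)
        N 0)
    intro a b hab
    exact Subtype.ext (Subtype.ext (congrArg (fun z : LvN V (G1 hS) N 0 => z.1) hab))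

end Q30.GG
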