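import Pool.Agent.Q30.GG.Loc
import Pool.Agent.Q30.GG.Lev

/-!
# Germs of homeomorphisms of the boundary of the tree: the system of germs
-/

set_option autoImplicit false

open Classical

namespace Q30.GG

open Pool.Agent.Y462.SS Pool.Agent.Y524L Pool.Agent.Y331.SS Q30.FJ
open Pool.Agent.Y524S (Tm Vs F sec_Tm sec_F root_Tm sec_Tm_one mem_Tm_iff Vs_apply secW_Tm)
open Pool.Agent.Y110.FJ (GrP ClosedE)

variable {X : Type} {V : ℕ → Set X}

/-- a word in front of a ray -/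
def cat (n : ℕ) (w ξ : ℕ → X) : ℕ → X := fun i => if i < n then w i else ξ (i - n)

/-- forget the first `n` letters -/
def tl (n : ℕ) (ρ : ℕ → X) : ℕ → X := fun i => ρ (n + i)

theorem cat_lt {n : ℕ} {w ξ : ℕ → X} {i : ℕ} (h : i < n) : cat n w ξ i = w i := if_pos h
theorem cat_add {n : ℕ} {w ξ : ℕ → X} (i : ℕ) : cat n w ξ (n + i) = ξ i := by
  rw [cat, if_neg (by omega), Nat.add_sub_cancel_left]

theorem tl_cat (n : ℕ) (w ξ : ℕ → X) : tl n (cat n w ξ) = ξ := funext fun i => cat_add i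

theorem cat_tl {n : ℕ} {w ρ : ℕ → X} (h : ∀ i < n, ρ i = w i) : cat n w (tl n ρ) = ρ := by
  funext i
  by_cases hi : i < n
  · rw [cat_lt hi, h i hi]
  · obtain ⟨j, rfl⟩ := Nat.exists_eq_add_of_le (not_lt.1 hi)
    rw [cat_add]
    rfl

/-- a point with a given prefix and a given tail -/
def catO (n : ℕ) (w : Om V) (ξ : ℕ → X) (h : ∀ i, ξ i ∈ V (n + i)) : Om V :=
  ⟨cat n w.1 ξ, fun i => by
    by_cases hi : i < n
    · rw [cat_lt hi]; exact w.2 i
    · obtain ⟨j, rfl⟩ := Nat.exists_eq_add_of_le (not_lt.1 hi)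
      rw [cat_add]
      exact h j⟩

/-- the group contains the germs of the changes of finitely many letters -/
def Chg (G : Subgroup (Equiv.Perm (Om V))) : Prop :=
  ∀ (n : ℕ) (ρ σ : Om V), (∀ m ≥ n, ρ.1 m = σ.1 m) → ∃ g ∈ G, ∃ k ≥ n, ∀ τ : Om V, Agr k ρ τ →
    Agr k σ (g τ) ∧ ∀ m ≥ k, (g τ).1 m = τ.1 m

/-- near `w ξ` the element `g` acts as `w τ ↦ w' h(τ)` -/
def Near (n : ℕ) (w w' : Om V) (g : Equiv.Perm (Om V)) (h : T X) (ξ : ℕ → X) (k : ℕ) : Prop :=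
  ∀ ρ : Om V, (∀ i < n, ρ.1 i = w.1 i) → (∀ i < k, ρ.1 (n + i) = ξ i) →
    (g ρ).1 = cat n w'.1 (img h (tl n ρ.1))

/-- the germ of `h` at `ξ` comes from `G` -/
def Pg (G : Subgroup (Equiv.Perm (Om V))) (n : ℕ) (h : T X) (ξ : ℕ → X) : Prop :=
  (∀ i, ξ i ∈ V (n + i)) → ∃ w w' : Om V, ∃ g ∈ G, ∃ k, Near n w w' g h ξ k

theorem near_mono {n : ℕ} {w w' : Om V} {g : Equiv.Perm (Om V)} {h : T X} {ξ : ℕ → X} {k l : ℕ}
    (hkl : k ≤ l) (hN : Near n w w' g h ξ k) : Near n w w' g h ξ l :=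
  fun ρ h1 h2 => hN ρ h1 fun i hi => h2 i (by omega)

/-- composition of germs -/
theorem near_mul {n : ℕ} {w w' w'' : Om V} {g g' : Equiv.Perm (Om V)} {h h' : T X} {ξ : ℕ → X}
    {k l : ℕ} (hN : Near n w w' g h ξ k) (hN' : Near n w' w'' g' h' (img h ξ) l) :
    Near n w w'' (g' * g) (h' * h) ξ (max k l) := by
  intro ρ h1 h2
  have h3 := hN ρ h1 fun i hi => h2 i (by omega)
  have h4 : ∀ i < l, img h (tl n ρ.1) i = img h ξ i :=
    img_agree h fun i hi => h2 i (by omega)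
  have h5 := hN' (g ρ) (fun i hi => by rw [h3, cat_lt hi]) (fun i hi => by
    rw [h3, cat_add]; exact h4 i hi)
  change (g' (g ρ)).1 = _
  rw [h5, h3, tl_cat, img_mul]

/-- change of the prefix -/
theorem conn {G : Subgroup (Equiv.Perm (Om V))} (hG : Chg G) (n : ℕ) (w w' : Om V) (ξ : ℕ → X)
    (hξ : ∀ i, ξ i ∈ V (n + i)) : ∃ g ∈ G, ∃ k, Near n w w' g 1 ξ k := by
  obtain ⟨g, hg, k, hk, h⟩ := hG n (catO n w ξ hξ) (catO n w' ξ hξ) (by
    intro m hm
    obtain ⟨j, rfl⟩ := Nat.exists_eq_add_of_le hm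
    change cat n w.1 ξ (n + j) = cat n w'.1 ξ (n + j)
    rw [cat_add, cat_add])
  refine ⟨g, hg, k, fun ρ h1 h2 => ?_⟩
  have h3 : Agr k (catO n w ξ hξ) ρ := by
    intro i _
    by_cases hi : i < n
    · rw [h1 i hi]
      exact cat_lt hi
    · obtain ⟨j, rfl⟩ := Nat.exists_eq_add_of_le (not_lt.1 hi)
      rw [h2 j (by omega)]
      exact cat_add j
  obtain ⟨h4, h5⟩ := h ρ h3
  rw [img_one]
  funext i
  by_cases hi : i < n
  · rw [cat_lt hi, ← h4 i (by omega)]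
    exact cat_lt hi
  · obtain ⟨j, rfl⟩ := Nat.exists_eq_add_of_le (not_lt.1 hi)
    rw [cat_add]
    by_cases hj : n + j < k
    · rw [← h4 (n + j) hj, tl, h2 j (by omega)]
      exact cat_add j
    · rw [h5 (n + j) (by omega)]
      rfl

theorem pg_norm {G : Subgroup (Equiv.Perm (Om V))} (hG : Chg G) {n : ℕ} {h : T X} {ξ : ℕ → X}
    (hT : h ∈ Tm (Vs V n)) (hξ : ∀ i, ξ i ∈ V (n + i)) (hP : Pg G n h ξ) (w w' : Om V) :
    ∃ g ∈ G, ∃ k, Near n w w' g h ξ k := by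
  obtain ⟨u, u', g, hg, k, hk⟩ := hP hξ
  obtain ⟨a, ha, l, hl⟩ := conn hG n w u ξ hξ
  have h1 : ∀ i, img h ξ i ∈ V (n + i) := by
    intro i
    rw [← Vs_apply V]
    exact img_valid i _ h ξ hT fun j => by rw [Vs_apply]; exact hξ j
  obtain ⟨b, hb, m, hm⟩ := conn hG n u' w' (img h ξ) h1
  rw [← img_one ξ] at hk
  have h2 := near_mul hl hk
  rw [mul_one] at h2
  have h3 := near_mul h2 hm
  rw [one_mul] at h3
  exact ⟨_, mul_mem hb (mul_mem hg ha), _, h3⟩

theorem pg_one {G : Subgroup (Equiv.Perm (Om V))} (ω : Om V) (n : ℕ) (ξ : ℕ → X) : Pg G n 1 ξ := by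
  intro _
  refine ⟨ω, ω, 1, one_mem _, 0, fun ρ h1 _ => ?_⟩
  rw [img_one, cat_tl h1]
  rfl

theorem pg_mul {G : Subgroup (Equiv.Perm (Om V))} (hG : Chg G) (n : ℕ) (ξ : ℕ → X) (g h : T X)
    (hg : g ∈ Tm (Vs V n)) (hh : h ∈ Tm (Vs V n)) (hP : Pg G n h ξ) (hP' : Pg G n g (img h ξ)) :
    Pg G n (g * h) ξ := by
  intro hξ
  obtain ⟨u, u', a, ha, k, hk⟩ := hP hξ
  have h1 : ∀ i, img h ξ i ∈ V (n + i) := by
    intro i
    rw [← Vs_apply V]
    exact img_valid i _ h ξ hh fun j => by rw [Vs_apply]; exact hξ j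
  obtain ⟨b, hb, m, hm⟩ := pg_norm hG hg h1 hP' u' u'
  exact ⟨u, u', _, mul_mem hb ha, _, near_mul hk hm⟩

theorem pg_inv {G : Subgroup (Equiv.Perm (Om V))} (n : ℕ) (ξ : ℕ → X) (h : T X)
    (hh : h ∈ Tm (Vs V n)) (hP : Pg G n h ξ) : Pg G n h⁻¹ (img h ξ) := by
  intro hξ
  have h0 : ∀ η : ℕ → X, (∀ i, η i ∈ V (n + i)) → ∀ i, img h⁻¹ η i ∈ V (n + i) := by
    intro η hη i
    rw [← Vs_apply V]
    exact img_valid i _ h⁻¹ η (inv_mem hh) fun j => by rw [Vs_apply]; exact hη j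
  have h1 : ∀ i, ξ i ∈ V (n + i) := by
    have h2 := h0 _ hξ
    rw [img_inv] at h2
    exact h2
  obtain ⟨u, u', a, ha, k, hk⟩ := hP h1
  refine ⟨u', u, a⁻¹, inv_mem ha, k, fun ρ h2 h3 => ?_⟩
  have h4 : ∀ i, tl n ρ.1 i ∈ V (n + i) := fun i => ρ.2 (n + i)
  let σ : Om V := catO n u (img h⁻¹ (tl n ρ.1)) (h0 _ h4)
  have h5 : tl n σ.1 = img h⁻¹ (tl n ρ.1) := tl_cat n _ _
  have h6 : (a σ).1 = ρ.1 := by
    rw [hk σ (fun i hi => cat_lt hi) ?_, h5, ← img_mul, mul_inv_cancel, img_one, cat_tl h2]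
    intro i hi
    have h7 := img_agree h⁻¹ (ξ := tl n ρ.1) (η := img h ξ) (k := k) h3 i hi
    rw [img_inv] at h7
    rw [← h7, ← h5]
    rfl
  have h8 : a σ = ρ := Subtype.ext h6
  have h9 : a⁻¹ ρ = σ := by
    rw [Equiv.Perm.inv_eq_iff_eq, h8]
  rw [h9]
  rfl

theorem pg_sec {G : Subgroup (Equiv.Perm (Om V))} (ω : Om V) (n : ℕ) (ξ : ℕ → X) (h : T X)
    (hh : h ∈ Tm (Vs V n)) (hP : Pg G n h ξ) : Pg G (n + 1) (sec h (ξ 0)) (sh ξ) := by
  by_cases h0 : ξ 0 ∈ V n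
  · intro hξ
    have h1 : ∀ i, ξ i ∈ V (n + i) := by
      intro i
      cases i with
      | zero => exact h0
      | succ i =>
        have h2 := hξ i
        rw [show n + 1 + i = n + (i + 1) from by omega] at h2
        exact h2
    have h1' : ∀ i, img h ξ i ∈ V (n + i) := by
      intro i
      rw [← Vs_apply V]
      exact img_valid i _ h ξ hh fun j => by rw [Vs_apply]; exact h1 j
    obtain ⟨u, u', a, ha, k, hk⟩ := hP h1
    refine ⟨catO n u ξ h1, catO n u' (img h ξ) h1', a, ha, k, fun ρ h2 h3 => ?_⟩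
    have h4 : ∀ i < n, ρ.1 i = u.1 i := fun i hi => (h2 i (by omega)).trans (cat_lt hi)
    have h5 : ρ.1 n = ξ 0 := (h2 n (by omega)).trans (cat_add 0)
    rw [hk ρ h4 (by
      intro i hi
      cases i with
      | zero => exact h5
      | succ i =>
        have h6 := h3 i (by omega)
        rw [show n + 1 + i = n + (i + 1) from by omega] at h6
        exact h6)]
    funext i
    by_cases hi : i < n
    · rw [cat_lt hi, cat_lt (by omega)]
      exact (cat_lt hi).symm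
    · by_cases hi' : i = n
      · subst hi'
        rw [cat_lt (show i < i + 1 from by omega)]
        change cat i u'.1 _ (i + 0) = cat i u'.1 _ (i + 0)
        rw [cat_add, cat_add, img_zero, img_zero]
        exact congrArg _ h5
      · obtain ⟨j, rfl⟩ := Nat.exists_eq_add_of_le (show n + 1 ≤ i from by omega)
        rw [cat_add, show n + 1 + j = n + (j + 1) from by omega, cat_add]
        have h6 : sh (tl n ρ.1) = tl (n + 1) ρ.1 := by
          funext l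
          change ρ.1 (n + (l + 1)) = ρ.1 (n + 1 + l)
          rw [show n + (l + 1) = n + 1 + l from by omega]
        have h7 : sh (img h (tl n ρ.1)) = img (sec h (ρ.1 n)) (sh (tl n ρ.1)) := sh_img h _
        rw [h5, h6] at h7
        exact congrFun h7 j
  · rw [sec_Tm_one hh (by rw [Vs_apply]; exact h0)]
    exact pg_one ω _ _

/-- the systems of germs -/
theorem pg_sys {G : Subgroup (Equiv.Perm (Om V))} (hG : Chg G) (ω : Om V) (N : ℕ) :
    Sys (Vs V N) (fun n => Pg G (N + n)) := by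
  have hV : ∀ n, Vs (Vs V N) n = Vs V (N + n) := by
    intro n
    funext i
    rw [Vs_apply, Vs_apply, Vs_apply, Nat.add_assoc]
  exact
    { one := fun n ξ => pg_one ω _ ξ
      mul := fun n ξ g h hg hh => by
        rw [hV] at hg hh
        exact pg_mul hG _ ξ g h hg hh
      inv := fun n ξ h hh => by
        rw [hV] at hh
        exact pg_inv _ ξ h hh
      sec := fun n ξ h hh => by
        rw [hV] at hh
        exact pg_sec ω _ ξ h hh }

end Q30.GG
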