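import Pool.Agent.Q30.GG.Ger1

/-!
# Germs of homeomorphisms of the boundary of the tree: the isotropy groups, singular rays
-/

set_option autoImplicit false

open Classical

namespace Q30.GG

open Pool.Agent.Y462.SS Pool.Agent.Y524L Pool.Agent.Y331.SS Q30.FJ
open Pool.Agent.Y524S (Tm Vs F sec_Tm sec_F root_Tm sec_Tm_one mem_Tm_iff Vs_apply secW_Tm)
open Pool.Agent.Y110.FJ (GrP ClosedE)

variable {X : Type} {V : ℕ → Set X}

/-- the stabilizer of a point -/
def Fix (G : Subgroup (Equiv.Perm (Om V))) (ρ : Om V) : Subgroup (Equiv.Perm (Om V)) where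
  carrier := {g | g ∈ G ∧ g ρ = ρ}
  one_mem' := ⟨one_mem _, rfl⟩
  mul_mem' := by
    rintro g h ⟨hg, hg'⟩ ⟨hh, hh'⟩
    exact ⟨mul_mem hg hh, by rw [Equiv.Perm.mul_apply, hh', hg']⟩
  inv_mem' := by
    rintro g ⟨hg, hg'⟩
    exact ⟨inv_mem hg, by rw [Equiv.Perm.inv_eq_iff_eq, hg']⟩

/-- the group of germs at `ρ` of the elements of `G` that fix `ρ` is in `C` -/
def GermIn (C : ∀ (G : Type) [Group G], Prop) (G : Subgroup (Equiv.Perm (Om V))) (ρ : Om V) :
    Prop :=
  ∃ (Q : Type) (_ : Group Q) (φ : ↥(Fix G ρ) →* Q), C Q ∧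
    ∀ g, φ g = 1 ↔ ∃ k, ∀ τ, Agr k ρ τ → g.1 τ = τ

theorem finite_closed' {C : ∀ (G : Type) [Group G], Prop} (hC : ClosedE C) (G : Type) [Group G]
    [Finite G] : C G := by
  refine Pool.Agent.Y430.SS.t_lf C hC.base G fun s => ?_
  infer_instance

theorem secW_Tm' {M : ℕ} {g : T X} (hg : g ∈ Tm (Vs V M)) (v : List X) :
    secW g v ∈ Tm (Vs V (M + v.length)) := secW_Tm v M hg

theorem img_cat (g : T X) (n : ℕ) : ∀ (ξ η : ℕ → X),
    img g (cat n ξ η) = cat n (img g ξ) (img (secW g (pre ξ n)) η) := by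
  induction n generalizing g with
  | zero =>
    intro ξ η
    have h1 : ∀ α β : ℕ → X, cat 0 α β = β := fun α β => by
      funext i
      have h2 : cat 0 α β (0 + i) = β i := cat_add i
      rw [Nat.zero_add] at h2
      exact h2
    rw [h1, h1]
    rfl
  | succ n ih =>
    intro ξ η
    have h1 : sh (cat (n + 1) ξ η) = cat n (sh ξ) η := by
      funext i
      change cat (n + 1) ξ η (i + 1) = _
      by_cases hi : i < n
      · rw [cat_lt hi, cat_lt (by omega)]
        rfl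
      · obtain ⟨j, rfl⟩ := Nat.exists_eq_add_of_le (not_lt.1 hi)
        rw [show n + j + 1 = n + 1 + j from by omega, cat_add, cat_add]
    have h0 : cat (n + 1) ξ η 0 = ξ 0 := cat_lt (by omega)
    funext i
    cases i with
    | zero =>
      rw [cat_lt (by omega), img_zero, img_zero, h0]
    | succ i =>
      have h2 : img g (cat (n + 1) ξ η) (i + 1) = img (sec g (ξ 0)) (cat n (sh ξ) η) i := by
        rw [← h1, ← h0]
        rfl
      rw [h2, ih]
      by_cases hi : i < n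
      · rw [cat_lt hi, cat_lt (by omega)]
        rfl
      · obtain ⟨j, rfl⟩ := Nat.exists_eq_add_of_le (not_lt.1 hi)
        rw [show n + j + 1 = n + 1 + j from by omega, cat_add, cat_add]
        rfl

theorem onlyTail {n : ℕ} {ω : Om V} {h : T X} {ξ : ℕ → X} (hT : h ∈ Tm (Vs V n))
    (hξ : ∀ i, ξ i ∈ V (n + i)) (hf : img h ξ = ξ) {k : ℕ} (hk : ∀ τ : Om V,
      (∀ i < n, τ.1 i = ω.1 i) → (∀ i < k, τ.1 (n + i) = ξ i) →
        img h (tl n τ.1) = tl n τ.1) : secW h (pre ξ k) = 1 := by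
  have h1 := secW_Tm' hT (pre ξ k)
  rw [length_pre] at h1
  let η₀ : Om (Vs V (n + k)) := ⟨tl (n + k) ω.1, fun i => by rw [Vs_apply]; exact ω.2 _⟩
  refine Tm_ext η₀ h1 (one_mem _) fun η => ?_
  rw [img_one]
  have h2 : ∀ i, cat k ξ η.1 i ∈ V (n + i) := by
    intro i
    by_cases hi : i < k
    · rw [cat_lt hi]; exact hξ i
    · obtain ⟨j, rfl⟩ := Nat.exists_eq_add_of_le (not_lt.1 hi)
      rw [cat_add, ← Nat.add_assoc, ← Vs_apply V]
      exact η.2 j
  have h3 := hk (catO n ω (cat k ξ η.1) h2) (fun i hi => cat_lt hi) (fun i hi => by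
    change cat n ω.1 (cat k ξ η.1) (n + i) = _
    rw [cat_add, cat_lt hi])
  have h4 : tl n (catO n ω (cat k ξ η.1) h2).1 = cat k ξ η.1 := tl_cat n _ _
  rw [h4, img_cat, hf] at h3
  funext i
  have h5 := congrFun h3 (k + i)
  rw [cat_add, cat_add] at h5
  exact h5

/-- the isotropy groups of the system of germs -/
theorem pg_iso {C : ∀ (G : Type) [Group G], Prop} (hC : ClosedE C) (hV : ∀ n, (V n).Finite)
    {G : Subgroup (Equiv.Perm (Om V))} (hG : Chg G) (ω : Om V) (hQ : ∀ ρ, GermIn C G ρ)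
    (N n : ℕ) (ξ : ℕ → X) : C (Iso (pg_sys hG ω N) n ξ) := by
  have hVV : Vs (Vs V N) n = Vs V (N + n) := by
    funext i
    rw [Vs_apply, Vs_apply, Vs_apply, Nat.add_assoc]
  have hVN : ∀ i, (Vs V N i).Finite := fun i => by rw [Vs_apply]; exact hV _
  by_cases hξ : ∀ i, ξ i ∈ V (N + n + i)
  · set ρ : Om V := catO (N + n) ω ξ hξ with hρ
    have hb : ∀ d : ↥(Iso (pg_sys hG ω N) n ξ), ∃ g ∈ G, ∃ k, Near (N + n) ω ω g d.1 ξ k := by
      intro d
      have h1 := d.2.1.1
      rw [hVV] at h1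
      exact pg_norm hG h1 hξ d.2.1.2.2 ω ω
    choose b hbG hbk using hb
    have hbf : ∀ d, b d ρ = ρ := by
      intro d
      obtain ⟨k, hk⟩ := hbk d
      apply Subtype.ext
      rw [hk ρ (fun i hi => cat_lt hi) (fun i _ => cat_add i)]
      have h1 : tl (N + n) ρ.1 = ξ := tl_cat _ _ _
      have h2 : img d.1 ξ = ξ := d.2.2
      rw [h1, h2]
      rfl
    obtain ⟨Q, instQ, φ, hQC, hφ⟩ := hQ ρ
    let B : ↥(Iso (pg_sys hG ω N) n ξ) → ↥(Fix G ρ) := fun d => ⟨b d, hbG d, hbf d⟩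
    have hagr : ∀ (k : ℕ) (τ : Om V), Agr (N + n + k) ρ τ → (∀ i < N + n, τ.1 i = ω.1 i) ∧
        ∀ i < k, τ.1 (N + n + i) = ξ i := by
      intro k τ h
      refine ⟨fun i hi => ?_, fun i hi => ?_⟩
      · rw [← h i (by omega)]
        exact cat_lt hi
      · rw [← h (N + n + i) (by omega)]
        exact cat_add i
    -- elements of the stabilizer with the same germ
    have hsame : ∀ (g g' : ↥(Fix G ρ)) (t : T X) (k l : ℕ), Near (N + n) ω ω g.1 t ξ k →
        Near (N + n) ω ω g'.1 t ξ l → φ g = φ g' := by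
      intro g g' t k l h1 h2
      have h3 : φ (g'⁻¹ * g) = 1 := by
        rw [hφ]
        refine ⟨N + n + max k l, fun τ hτ => ?_⟩
        obtain ⟨h4, h5⟩ := hagr _ τ hτ
        have h6 := h1 τ h4 fun i hi => h5 i (by omega)
        have h7 := h2 τ h4 fun i hi => h5 i (by omega)
        have h8 : g.1 τ = g'.1 τ := Subtype.ext (h6.trans h7.symm)
        change g'.1⁻¹ (g.1 τ) = τ
        rw [Equiv.Perm.inv_eq_iff_eq, h8]
      rw [map_mul, map_inv] at h3
      exact (inv_mul_eq_one.1 h3).symm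
    let Φ : ↥(Iso (pg_sys hG ω N) n ξ) →* Q := MonoidHom.mk' (fun d => φ (B d)) (by
      intro d e
      obtain ⟨k, hk⟩ := hbk d
      obtain ⟨l, hl⟩ := hbk e
      obtain ⟨m, hm⟩ := hbk (d * e)
      rw [← map_mul]
      have h1 : img e.1 ξ = ξ := e.2.2
      have hk' : Near (N + n) ω ω (b d) d.1 (img e.1 ξ) k := by
        intro τ h2 h3
        exact hk τ h2 fun i hi => by rw [h3 i hi, h1]
      exact hsame (B (d * e)) (B d * B e) (d.1 * e.1) m (max l k) hm (near_mul hl hk'))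
    refine iso_closed hC hVN (pg_sys hG ω N) n ξ Q hQC Φ ?_
    intro d hd
    have h1 : φ (B d) = 1 := hd
    rw [hφ] at h1
    obtain ⟨k, hk⟩ := h1
    obtain ⟨l, hl⟩ := hbk d
    refine ⟨max k l, ?_⟩
    have h2 := d.2.1.1
    rw [hVV] at h2
    refine onlyTail (ω := ω) h2 hξ d.2.2 fun τ h3 h4 => ?_
    have h5 : b d τ = τ := by
      refine hk τ fun i hi => ?_
      by_cases hi' : i < N + n
      · rw [h3 i hi']
        exact cat_lt hi'
      · obtain ⟨j, rfl⟩ := Nat.exists_eq_add_of_le (not_lt.1 hi')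
        rw [h4 j (by omega)]
        exact cat_add j
    have h6 := hl τ h3 fun i hi => h4 i (by omega)
    rw [h5] at h6
    have h7 := congrArg (tl (N + n)) h6
    rw [tl_cat] at h7
    exact h7.symm
  · rw [not_forall] at hξ
    obtain ⟨i, hi⟩ := hξ
    refine iso_closed hC hVN (pg_sys hG ω N) n ξ Unit (finite_closed' hC Unit) 1 ?_
    intro d _
    refine ⟨i + 1, ?_⟩
    have h2 := d.2.1.1
    rw [hVV] at h2
    have h3 := secW_Tm' h2 (pre ξ i)
    rw [length_pre] at h3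
    rw [pre_snoc, secW_append]
    exact sec_Tm_one h3 (by rw [Vs_apply]; exact hi)

/-! ## singular rays -/

/-- the rays along which all sections have infinite depth -/
def Sing (g : T X) : Set (ℕ → X) := {ξ | ∀ m, secW g (pre ξ m) ∉ Fn X}

theorem Fn_sec {g : T X} (hg : g ∈ Fn X) (x : X) : sec g x ∈ Fn X := by
  obtain ⟨k, hk⟩ := hg
  exact ⟨k, isDep_sec hk x⟩

theorem Fn_secW (v : List X) : ∀ g : T X, g ∈ Fn X → secW g v ∈ Fn X := by
  induction v with
  | nil => exact fun g hg => hg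
  | cons x v ih => exact fun g hg => ih _ (Fn_sec hg x)

theorem not_Fn_le {g : T X} {ξ : ℕ → X} {m n : ℕ} (h : m ≤ n) (hg : secW g (pre ξ n) ∉ Fn X) :
    secW g (pre ξ m) ∉ Fn X := by
  induction h with
  | refl => exact hg
  | step _ ih =>
    apply ih
    intro h1
    apply hg
    rw [pre_snoc, secW_append]
    exact Fn_sec h1 _

theorem sing_one : Sing (1 : T X) = ∅ := by
  rw [Set.eq_empty_iff_forall_notMem]
  intro ξ h
  exact h 0 (by rw [secW_one]; exact one_mem _)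

theorem sing_mul (g h : T X) : Sing (g * h) ⊆ Sing h ∪ img h ⁻¹' Sing g := by
  intro ξ hξ
  rw [Set.mem_union]
  by_contra h1
  rw [not_or] at h1
  obtain ⟨h2, h3⟩ := h1
  rw [Sing, Set.mem_ofPred_eq, not_forall] at h2
  rw [Set.mem_preimage, Sing, Set.mem_ofPred_eq, not_forall] at h3
  obtain ⟨k, hk⟩ := h2
  obtain ⟨l, hl⟩ := h3
  apply hξ (max k l)
  have hk' : secW h (pre ξ (max k l)) ∈ Fn X := by
    by_contra h4
    exact hk (not_Fn_le (le_max_left k l) h4)
  have hl' : secW g (pre (img h ξ) (max k l)) ∈ Fn X := by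
    by_contra h4
    exact hl (not_Fn_le (le_max_right k l) h4)
  rw [secW_mul, apply_pre]
  exact mul_mem hl' hk'

theorem img_injective (g : T X) : Function.Injective (img g) := fun ξ η h => by
  rw [← img_inv g ξ, h, img_inv]

theorem sing_mul_finite {g h : T X} (hg : (Sing g).Finite) (hh : (Sing h).Finite) :
    (Sing (g * h)).Finite :=
  (hh.union (hg.preimage (img_injective h).injOn)).subset (sing_mul g h)

theorem sing_inv {g : T X} : Sing g⁻¹ ⊆ img g '' Sing g := by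
  intro ξ hξ
  refine ⟨img g⁻¹ ξ, fun m h1 => hξ m ?_, ?_⟩
  · have h2 : ξ = img g (img g⁻¹ ξ) := by rw [← img_mul, mul_inv_cancel, img_one]
    rw [h2, ← apply_pre, secW_inv]
    exact inv_mem h1
  · rw [← img_mul, mul_inv_cancel, img_one]

/-- König's lemma -/
theorem koenig {g : T X} (hV : ∀ n, (V n).Finite) (hg : g ∈ Tm V) (h : g ∉ Fn X) :
    ∃ ξ ∈ Sing g, ∀ i, ξ i ∈ V i := by
  have key : ∀ (p : {p : (ℕ → Set X) × T X // (∀ n, (p.1 n).Finite) ∧ p.2 ∈ Tm p.1 ∧ p.2 ∉ Fn X}),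
      ∃ x, x ∈ p.1.1 0 ∧ sec p.1.2 x ∉ Fn X := by
    rintro ⟨⟨W, t⟩, h1, h2, h3⟩
    by_contra h4
    apply h3
    refine fn_of_sec (h1 0) h2 fun x => ?_
    by_contra h5
    apply h4
    refine ⟨x, ?_, h5⟩
    by_contra h6
    apply h5
    change sec t x ∈ Fn X
    rw [sec_Tm_one h2 h6]
    exact one_mem _
  choose st hst hst' using key
  let nx : {p : (ℕ → Set X) × T X // (∀ n, (p.1 n).Finite) ∧ p.2 ∈ Tm p.1 ∧ p.2 ∉ Fn X} →
      {p : (ℕ → Set X) × T X // (∀ n, (p.1 n).Finite) ∧ p.2 ∈ Tm p.1 ∧ p.2 ∉ Fn X} :=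
    fun p => ⟨(sh p.1.1, sec p.1.2 (st p)), fun n => p.2.1 (n + 1), sec_Tm p.2.2.1 _, hst' p⟩
  let ray : {p : (ℕ → Set X) × T X // (∀ n, (p.1 n).Finite) ∧ p.2 ∈ Tm p.1 ∧ p.2 ∉ Fn X} →
      ℕ → X := fun p n => st (nx^[n] p)
  have hray : ∀ p, sh (ray p) = ray (nx p) := by
    intro p
    funext n
    change st (nx^[n + 1] p) = st (nx^[n] (nx p))
    rw [Function.iterate_succ_apply]
  have h1 : ∀ (m : ℕ) p, secW p.1.2 (pre (ray p) m) ∉ Fn X := by
    intro m
    induction m with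
    | zero => exact fun p => p.2.2.2
    | succ m ih =>
      intro p
      rw [pre_succ, hray]
      exact ih (nx p)
  have h2 : ∀ (m : ℕ) p, ray p m ∈ p.1.1 m := by
    intro m
    induction m with
    | zero => exact fun p => hst p
    | succ m ih =>
      intro p
      have h3 := ih (nx p)
      rw [← hray] at h3
      exact h3
  exact ⟨ray ⟨(V, g), hV, hg, h⟩, fun m => h1 m ⟨(V, g), hV, hg, h⟩,
    fun i => h2 i ⟨(V, g), hV, hg, h⟩⟩

theorem secW_of_isDep (k : ℕ) : ∀ (t : T X) (u : List X), IsDep k t → u.length = k →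
    secW t u = 1 := by
  induction k with
  | zero =>
    intro t u ht hu
    rw [isDep_zero] at ht
    rw [ht, secW_one]
  | succ k ih =>
    intro t u ht hu
    cases u with
    | nil => simp at hu
    | cons x u => exact ih (sec t x) u (ht x) (by simpa using hu)

theorem depthAt_of_Fn {g : T X} {v : List X} (h : secW g v ∈ Fn X) : ∃ k, DepthAt g.1 v k := by
  obtain ⟨k, hk⟩ := h
  refine ⟨k, fun u w hu => ?_⟩
  rw [apply_append g (v ++ u) w, secW_append, secW_of_isDep k _ u hk hu]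
  rfl

/-- automorphisms with finitely many singular rays -/
theorem finS_of_sing {g : T X} (hV : ∀ n, (V n).Finite) (hg : g ∈ Tm V) (h : (Sing g).Finite) :
    ∃ R, FinS R g := by
  refine ⟨h.toFinset, fun v hv => depthAt_of_Fn ?_⟩
  by_contra h1
  have h2 := secW_Tm (V := V) v 0 hg
  obtain ⟨ξ, hξ, _⟩ := koenig (V := Vs V (0 + v.length)) (fun n => by rw [Vs_apply]; exact hV _) h2 h1
  have h3 : ∀ (v : List X) (g : T X), ξ ∈ Sing (secW g v) →
      ∃ η ∈ Sing g, OnRay η v := by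
    intro v
    induction v with
    | nil => exact fun g hg => ⟨ξ, hg, rfl⟩
    | cons x v ih =>
      intro g hg
      obtain ⟨η, hη, h4⟩ := ih (sec g x) hg
      refine ⟨consR x η, fun m => ?_, ?_⟩
      · cases m with
        | zero =>
          intro h5
          exact hη 0 (Fn_sec h5 x)
        | succ m =>
          rw [pre_succ]
          exact hη m
      · rw [onRay_cons]
        exact ⟨rfl, h4⟩
  obtain ⟨η, hη, h4⟩ := h3 v g hξ
  exact hv η (h.mem_toFinset.2 hη) h4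

end Q30.GG
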