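import Pool.Agent.Q30.GG.Ger2

/-!
# Groups of homeomorphisms of the boundary of a tree with finitely many singular points
-/

set_option autoImplicit false

open Classical

namespace Q30.GG

open Pool.Agent.Y462.SS Pool.Agent.Y524L Pool.Agent.Y331.SS Q30.FJ
open Pool.Agent.Y524S (Tm Vs F sec_Tm sec_F root_Tm sec_Tm_one mem_Tm_iff Vs_apply secW_Tm)
open Pool.Agent.Y110.FJ (GrP ClosedE)

variable {X : Type} {V : ℕ → Set X}

/-- the group of the automorphisms of the subtree whose germs come from `G`, with finitely many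
singular rays -/
def BN {G : Subgroup (Equiv.Perm (Om V))} (hG : Chg G) (ω : Om V) (N : ℕ) : Subgroup (T X) where
  carrier := {h | h ∈ Tm (Vs V N) ∧ (∀ ξ, Pg G N h ξ) ∧ (Sing h).Finite}
  one_mem' := ⟨one_mem _, fun ξ => pg_one ω N ξ, by rw [sing_one]; exact Set.finite_empty⟩
  mul_mem' := by
    rintro g h ⟨hg, hg', hg''⟩ ⟨hh, hh', hh''⟩
    exact ⟨mul_mem hg hh, fun ξ => pg_mul hG N ξ g h hg hh (hh' ξ) (hg' _),
      sing_mul_finite hg'' hh''⟩
  inv_mem' := by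
    rintro g ⟨hg, hg', hg''⟩
    refine ⟨inv_mem hg, fun ξ => ?_, (hg''.image _).subset sing_inv⟩
    have h1 := pg_inv N (img g⁻¹ ξ) g hg (hg' _)
    rw [← img_mul, mul_inv_cancel, img_one] at h1
    exact h1

theorem BN_closed {C : ∀ (G : Type) [Group G], Prop} (hC : ClosedE C) (hV : ∀ n, (V n).Finite)
    {G : Subgroup (Equiv.Perm (Om V))} (hG : Chg G) (ω : Om V) (hQ : ∀ ρ, GermIn C G ρ) (N : ℕ) :
    C (BN hG ω N) := by
  have hVN : ∀ i, (Vs V N i).Finite := fun i => by rw [Vs_apply]; exact hV _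
  exact sys_main hC hVN (pg_sys hG ω N) (fun n ξ => pg_iso hC hV hG ω hQ N n ξ) (BN hG ω N)
    (fun g hg => hg.1) (fun g hg ξ => hg.2.1 ξ) (fun g hg => finS_of_sing hVN hg.1 hg.2.2)

/-! ## automorphisms of the forest of level `N` -/

/-- the elements that are isometries below level `N` -/
def KN (G : Subgroup (Equiv.Perm (Om V))) (N : ℕ) : Subgroup (Equiv.Perm (Om V)) where
  carrier := {g | g ∈ G ∧ ∀ m ≥ N, ∀ ρ σ, Agr m ρ σ ↔ Agr m (g ρ) (g σ)}
  one_mem' := ⟨one_mem _, fun _ _ _ _ => Iff.rfl⟩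
  mul_mem' := by
    rintro g h ⟨hg, hg'⟩ ⟨hh, hh'⟩
    exact ⟨mul_mem hg hh, fun m hm ρ σ => (hh' m hm ρ σ).trans (hg' m hm _ _)⟩
  inv_mem' := by
    rintro g ⟨hg, hg'⟩
    refine ⟨inv_mem hg, fun m hm ρ σ => ?_⟩
    have h1 := hg' m hm (g⁻¹ ρ) (g⁻¹ σ)
    rw [show g (g⁻¹ ρ) = ρ from g.apply_symm_apply ρ, show g (g⁻¹ σ) = σ from
      g.apply_symm_apply σ] at h1
    exact h1.symm

theorem KN_mono (G : Subgroup (Equiv.Perm (Om V))) : Monotone (KN G) :=
  fun _ _ h _ hg => ⟨hg.1, fun m hm => hg.2 m (le_trans h hm)⟩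

/-- `g` maps `w τ` to `w' t(τ)` -/
def NearW (N : ℕ) (w w' : Om V) (g : Equiv.Perm (Om V)) (t : T X) : Prop :=
  ∀ ρ : Om V, (∀ i < N, ρ.1 i = w.1 i) → (g ρ).1 = cat N w'.1 (img t (tl N ρ.1))

theorem om_tail {N : ℕ} (η : Om (Vs V N)) (i : ℕ) : η.1 i ∈ V (N + i) := by
  rw [← Vs_apply V]
  exact η.2 i

/-- the tail of a point -/
def tlO (N : ℕ) (ρ : Om V) : Om (Vs V N) := ⟨tl N ρ.1, fun i => by rw [Vs_apply]; exact ρ.2 _⟩

theorem catO_tlO {N : ℕ} {w ρ : Om V} (h : ∀ i < N, ρ.1 i = w.1 i) :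
    catO N w (tlO N ρ).1 (om_tail _) = ρ := Subtype.ext (cat_tl h)

theorem tlO_catO {N : ℕ} (w : Om V) (η : Om (Vs V N)) :
    tlO N (catO N w η.1 (om_tail η)) = η := Subtype.ext (tl_cat _ _ _)

theorem agr_catO {N m : ℕ} (w : Om V) {η η' : Om (Vs V N)} (h : Agr m η η') :
    Agr (N + m) (catO N w η.1 (om_tail η)) (catO N w η'.1 (om_tail η')) := by
  intro i hi
  change cat N w.1 η.1 i = cat N w.1 η'.1 i
  by_cases h1 : i < N
  · rw [cat_lt h1, cat_lt h1]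
  · obtain ⟨j, rfl⟩ := Nat.exists_eq_add_of_le (not_lt.1 h1)
    rw [cat_add, cat_add]
    exact h j (by omega)

theorem agr_tlO {N m : ℕ} {ρ ρ' : Om V} (h : Agr (N + m) ρ ρ') : Agr m (tlO N ρ) (tlO N ρ') :=
  fun i hi => h (N + i) (by omega)

theorem exists_sec {G : Subgroup (Equiv.Perm (Om V))} {N : ℕ} {g : Equiv.Perm (Om V)}
    (hg : g ∈ KN G N) (w : Om V) : ∃ t ∈ Tm (Vs V N), NearW N w (g w) g t := by
  have hcat : ∀ (v : Om V) (η : Om (Vs V N)), Agr N v (catO N v η.1 (om_tail η)) :=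
    fun v η i hi => (cat_lt hi).symm
  have hg' := (KN G N).inv_mem hg
  obtain ⟨t, ht, h⟩ := exists_T (tlO N w)
    (fun η => tlO N (g (catO N w η.1 (om_tail η))))
    (fun η => tlO N (g⁻¹ (catO N (g w) η.1 (om_tail η))))
    (fun m η η' h => agr_tlO ((hg.2 (N + m) (by omega) _ _).1 (agr_catO w h)))
    (fun m η η' h => agr_tlO ((hg'.2 (N + m) (by omega) _ _).1 (agr_catO (g w) h)))
    (fun η => by
      have h1 := (hg.2 N le_rfl _ _).1 (hcat w η)
      rw [catO_tlO fun i hi => (h1 i hi).symm]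
      rw [show g⁻¹ (g (catO N w η.1 (om_tail η))) = _ from g.symm_apply_apply _]
      exact tlO_catO w η)
    (fun η => by
      have h1 := (hg'.2 N le_rfl _ _).1 (hcat (g w) η)
      rw [show g⁻¹ (g w) = w from g.symm_apply_apply _] at h1
      rw [catO_tlO fun i hi => (h1 i hi).symm]
      rw [show g (g⁻¹ (catO N (g w) η.1 (om_tail η))) = _ from g.apply_symm_apply _]
      exact tlO_catO (g w) η)
  refine ⟨t, ht, fun ρ hρ => ?_⟩
  have h1 := h (tlO N ρ)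
  have h2 : catO N w (tlO N ρ).1 (om_tail _) = ρ := catO_tlO hρ
  rw [h2] at h1
  have h3 := (hg.2 N le_rfl w ρ).1 fun i hi => (hρ i hi).symm
  change img t (tl N ρ.1) = tl N (g ρ).1 at h1
  rw [h1, cat_tl fun i hi => (h3 i hi).symm]

theorem nearW_unique {N : ℕ} {w w' w'' : Om V} {g : Equiv.Perm (Om V)} {t t' : T X}
    (ht : t ∈ Tm (Vs V N)) (ht' : t' ∈ Tm (Vs V N)) (h : NearW N w w' g t)
    (h' : NearW N w w'' g t') : t = t' := by
  refine Tm_ext (tlO N w) ht ht' fun η => ?_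
  have h1 := h (catO N w η.1 (om_tail η)) fun i hi => cat_lt hi
  have h2 := h' (catO N w η.1 (om_tail η)) fun i hi => cat_lt hi
  have h3 : tl N (catO N w η.1 (om_tail η)).1 = η.1 := tl_cat _ _ _
  rw [h3] at h1 h2
  have h4 := congrArg (tl N) (h1.symm.trans h2)
  rw [tl_cat, tl_cat] at h4
  exact h4

theorem nearW_mul {N : ℕ} {w w' v w'' : Om V} {g g' : Equiv.Perm (Om V)} {t t' : T X}
    (h : NearW N w w' g t) (hv : ∀ i < N, w'.1 i = v.1 i) (h' : NearW N v w'' g' t') :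
    NearW N w w'' (g' * g) (t' * t) := by
  intro ρ hρ
  have h1 := h ρ hρ
  have h2 := h' (g ρ) fun i hi => by rw [h1, cat_lt hi, hv i hi]
  change (g' (g ρ)).1 = _
  rw [h2, h1, tl_cat, img_mul]

/-- the words of length `N` -/
abbrev Wd' (V : ℕ → Set X) (N : ℕ) : Type := ∀ i : Fin N, ↥(V i)

/-- the first `N` letters -/
def hd (N : ℕ) (ρ : Om V) : Wd' V N := fun i => ⟨ρ.1 i, ρ.2 i⟩

/-- a point with given first letters -/
noncomputable def ex (ω : Om V) {N : ℕ} (u : Wd' V N) : Om V :=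
  ⟨fun i => if h : i < N then (u ⟨i, h⟩).1 else ω.1 i, fun i => by
    change (if h : i < N then (u ⟨i, h⟩).1 else ω.1 i) ∈ V i
    by_cases h : i < N
    · rw [dif_pos h]; exact (u ⟨i, h⟩).2
    · rw [dif_neg h]; exact ω.2 i⟩

theorem hd_ex (ω : Om V) {N : ℕ} (u : Wd' V N) : hd N (ex ω u) = u := by
  funext i
  apply Subtype.ext
  exact dif_pos i.2

theorem ex_hd (ω : Om V) {N : ℕ} (ρ : Om V) : ∀ i < N, (ex ω (hd N ρ)).1 i = ρ.1 i :=
  fun _ hi => dif_pos hi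

theorem hd_eq {N : ℕ} {ρ σ : Om V} (h : ∀ i < N, ρ.1 i = σ.1 i) : hd N ρ = hd N σ := by
  funext i
  exact Subtype.ext (h i i.2)

theorem of_hd_eq {N : ℕ} {ρ σ : Om V} (h : hd N ρ = hd N σ) : ∀ i < N, ρ.1 i = σ.1 i :=
  fun i hi => congrArg Subtype.val (congrFun h ⟨i, hi⟩)

/-- the permutation of the words of length `N` -/
noncomputable def pW {G : Subgroup (Equiv.Perm (Om V))} (ω : Om V) {N : ℕ} (g : ↥(KN G N)) :
    Equiv.Perm (Wd' V N) where
  toFun u := hd N (g.1 (ex ω u))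
  invFun u := hd N (g.1⁻¹ (ex ω u))
  left_inv u := by
    have h1 := ((KN G N).inv_mem g.2).2 N le_rfl (ex ω (hd N (g.1 (ex ω u)))) (g.1 (ex ω u))
    have h2 := h1.1 fun i hi => ex_hd ω _ i hi
    rw [show g.1⁻¹ (g.1 (ex ω u)) = _ from g.1.symm_apply_apply _] at h2
    rw [← hd_ex ω u, hd_ex ω u]
    exact (hd_eq h2).trans (hd_ex ω u)
  right_inv u := by
    have h1 := g.2.2 N le_rfl (ex ω (hd N (g.1⁻¹ (ex ω u)))) (g.1⁻¹ (ex ω u))
    have h2 := h1.1 fun i hi => ex_hd ω _ i hi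
    rw [show g.1 (g.1⁻¹ (ex ω u)) = _ from g.1.apply_symm_apply _] at h2
    exact (hd_eq h2).trans (hd_ex ω u)

/-- the sections -/
noncomputable def tW {G : Subgroup (Equiv.Perm (Om V))} {N : ℕ} (g : ↥(KN G N)) (w : Om V) :
    T X := (exists_sec g.2 w).choose

theorem tW_mem {G : Subgroup (Equiv.Perm (Om V))} {N : ℕ} (g : ↥(KN G N)) (w : Om V) :
    tW g w ∈ Tm (Vs V N) := (exists_sec g.2 w).choose_spec.1

theorem tW_near {G : Subgroup (Equiv.Perm (Om V))} {N : ℕ} (g : ↥(KN G N)) (w : Om V) :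
    NearW N w (g.1 w) g.1 (tW g w) := (exists_sec g.2 w).choose_spec.2

/-- the points near which `g` changes infinitely many letters -/
def Bad (g : Equiv.Perm (Om V)) : Set (Om V) :=
  {ρ | ¬ ∃ k, ∀ τ, Agr k ρ τ → ∀ m ≥ k, (g τ).1 m = τ.1 m}

theorem sing_tW {G : Subgroup (Equiv.Perm (Om V))} {N : ℕ} (g : ↥(KN G N)) (w : Om V) :
    Sing (tW g w) ⊆ (fun ρ : Om V => tl N ρ.1) '' Bad g.1 := by
  intro ξ hξ
  have ht := tW_mem g w
  have h1 : ∀ i, ξ i ∈ V (N + i) := by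
    intro i
    by_contra h2
    apply hξ (i + 1)
    have h3 := secW_Tm' ht (pre ξ i)
    rw [length_pre] at h3
    rw [pre_snoc, secW_append]
    have h4 : secW (secW (tW g w) (pre ξ i)) [ξ i] = 1 :=
      sec_Tm_one h3 (by rw [Vs_apply]; exact h2)
    rw [h4]
    exact one_mem _
  refine ⟨catO N w ξ h1, ?_, tl_cat _ _ _⟩
  rintro ⟨k, hk⟩
  apply hξ k
  have h2 := secW_Tm' ht (pre ξ k)
  rw [length_pre] at h2
  have h3 : secW (tW g w) (pre ξ k) = 1 := by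
    refine Tm_ext (tlO (N + k) w) h2 (one_mem _) fun η => ?_
    rw [img_one]
    have h4 : ∀ i, cat k ξ η.1 i ∈ V (N + i) := by
      intro i
      by_cases hi : i < k
      · rw [cat_lt hi]; exact h1 i
      · obtain ⟨j, rfl⟩ := Nat.exists_eq_add_of_le (not_lt.1 hi)
        rw [cat_add, ← Nat.add_assoc]
        exact om_tail η j
    have h5 := hk (catO N w (cat k ξ η.1) h4) (by
      intro i hi
      change cat N w.1 ξ i = cat N w.1 (cat k ξ η.1) i
      by_cases hi' : i < N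
      · rw [cat_lt hi', cat_lt hi']
      · obtain ⟨j, rfl⟩ := Nat.exists_eq_add_of_le (not_lt.1 hi')
        rw [cat_add, cat_add, cat_lt (by omega)])
    have h6 := tW_near g w (catO N w (cat k ξ η.1) h4) fun i hi => cat_lt hi
    have h7 : tl N (catO N w (cat k ξ η.1) h4).1 = cat k ξ η.1 := tl_cat _ _ _
    rw [h7, img_cat] at h6
    funext i
    have h8 := h5 (N + (k + i)) (by omega)
    rw [h6, cat_add, cat_add] at h8
    rw [h8]
    change cat N w.1 (cat k ξ η.1) (N + (k + i)) = _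
    rw [cat_add, cat_add]
  rw [h3]
  exact one_mem _

theorem tW_BN {G : Subgroup (Equiv.Perm (Om V))} (hG : Chg G) (ω : Om V) {N : ℕ}
    (hB : ∀ g ∈ G, (Bad g).Finite) (g : ↥(KN G N)) (w : Om V) : tW g w ∈ BN hG ω N :=
  ⟨tW_mem g w, fun _ _ => ⟨w, g.1 w, g.1, g.2.1, 0, fun ρ h1 _ => tW_near g w ρ h1⟩,
    ((hB g.1 g.2.1).image _).subset (sing_tW g w)⟩

/-- the wreath recursion -/
noncomputable def thW {G : Subgroup (Equiv.Perm (Om V))} (hG : Chg G) (ω : Om V)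
    (hB : ∀ g ∈ G, (Bad g).Finite) (N : ℕ) : ↥(KN G N) →* Wr (Wd' V N) ↥(BN hG ω N) :=
  MonoidHom.mk' (fun g => ⟨fun u => ⟨tW g (ex ω u), tW_BN hG ω hB g _⟩, pW ω g⟩) (by
    intro g h
    apply Wr.ext
    · funext u
      apply Subtype.ext
      change tW (g * h) (ex ω u) = tW g (ex ω (hd N (h.1 (ex ω u)))) * tW h (ex ω u)
      exact nearW_unique (tW_mem _ _) (mul_mem (tW_mem _ _) (tW_mem _ _))
        (tW_near (g * h) (ex ω u)) (nearW_mul (tW_near h (ex ω u))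
          (fun i hi => (ex_hd ω _ i hi).symm) (tW_near g (ex ω (hd N (h.1 (ex ω u))))))
    · apply Equiv.ext
      intro u
      change hd N ((g.1 * h.1) (ex ω u)) = hd N (g.1 (ex ω (hd N (h.1 (ex ω u)))))
      have h1 := (g.2.2 N le_rfl (ex ω (hd N (h.1 (ex ω u)))) (h.1 (ex ω u))).1
        fun i hi => ex_hd ω _ i hi
      exact (hd_eq h1).symm)

theorem thW_injective {G : Subgroup (Equiv.Perm (Om V))} (hG : Chg G) (ω : Om V)
    (hB : ∀ g ∈ G, (Bad g).Finite) (N : ℕ) : Function.Injective (thW hG ω hB N) := by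
  intro g h hgh
  apply Subtype.ext
  apply Equiv.ext
  intro ρ
  apply Subtype.ext
  have h1 : ∀ i < N, ρ.1 i = (ex ω (hd N ρ)).1 i := fun i hi => (ex_hd ω ρ i hi).symm
  rw [tW_near g (ex ω (hd N ρ)) ρ h1, tW_near h (ex ω (hd N ρ)) ρ h1]
  have h2 : tW g (ex ω (hd N ρ)) = tW h (ex ω (hd N ρ)) :=
    congrArg Subtype.val (congrFun (congrArg Wr.s hgh) (hd N ρ))
  have h3 : hd N (g.1 (ex ω (hd N ρ))) = hd N (h.1 (ex ω (hd N ρ))) :=
    DFunLike.congr_fun (congrArg Wr.p hgh) (hd N ρ)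
  rw [h2]
  funext i
  by_cases hi : i < N
  · rw [cat_lt hi, cat_lt hi]
    exact of_hd_eq h3 i hi
  · obtain ⟨j, rfl⟩ := Nat.exists_eq_add_of_le (not_lt.1 hi)
    rw [cat_add, cat_add]

/-- **the theorem** -/
theorem germ_main {C : ∀ (G : Type) [Group G], Prop} (hC : ClosedE C) (hV : ∀ n, (V n).Finite)
    (G : Subgroup (Equiv.Perm (Om V)))
    (h1 : ∀ g ∈ G, ∃ N, ∀ m ≥ N, ∀ ρ σ, Agr m ρ σ → Agr m (g ρ) (g σ))
    (h2 : Chg G) (h3 : ∀ g ∈ G, (Bad g).Finite) (h4 : ∀ ρ, GermIn C G ρ) : C G := by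
  by_cases hne : Nonempty (Om V)
  · obtain ⟨ω⟩ := hne
    refine Pool.Agent.Y430.SS.t_union C hC.base G (fun N => (KN G N).comap G.subtype) ?_ ?_ ?_
    · exact fun M N h g hg => KN_mono G h hg
    · rintro ⟨g, hg⟩
      obtain ⟨M, hM⟩ := h1 g hg
      obtain ⟨N, hN⟩ := h1 g⁻¹ (inv_mem hg)
      refine ⟨max M N, hg, fun m hm ρ σ => ⟨hM m (le_trans (le_max_left M N) hm) ρ σ, fun h => ?_⟩⟩
      have h5 := hN m (le_trans (le_max_right M N) hm) (g ρ) (g σ) h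
      rw [show g⁻¹ (g ρ) = ρ from g.symm_apply_apply ρ, show g⁻¹ (g σ) = σ from
        g.symm_apply_apply σ] at h5
      exact h5
    · intro N
      have : ∀ i : Fin N, Finite ↥(V i) := fun i => (hV i).to_subtype
      have h5 : C (Wr (Wd' V N) ↥(BN h2 ω N)) :=
        Pool.Agent.Y812.SS.t_wr C hC.base _ _ inferInstance (BN_closed hC hV h2 ω h4 N)
      have h6 : C ↥(KN G N) := hC.base.of_injective _ _ (thW h2 ω h3 N)
        (thW_injective h2 ω h3 N) h5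
      refine hC.base.of_injective _ ↥(KN G N)
        { toFun := fun g => ⟨g.1.1, g.2⟩, map_one' := rfl, map_mul' := fun _ _ => rfl } ?_ h6
      intro a b hab
      exact Subtype.ext (Subtype.ext (congrArg (fun z : ↥(KN G N) => z.1) hab))
  · rw [not_nonempty_iff] at hne
    have : Finite ↥G := inferInstance
    exact finite_closed' hC _

end Q30.GG
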