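import Pool.Agent.Q30.GG.Ray

/-!
# Isometries of products of sets of letters and automorphisms of the tree
-/

set_option autoImplicit false

open Classical

namespace Q30.GG

open Pool.Agent.Y462.SS Pool.Agent.Y524L Pool.Agent.Y331.SS
open Pool.Agent.Y524S (Tm Vs F sec_Tm sec_F root_Tm sec_Tm_one mem_Tm_iff Vs_apply secW_Tm)

variable {X : Type}

/-- the product of the sets `V 0, V 1, ...` -/
def Om (V : ℕ → Set X) : Type := {ρ : ℕ → X // ∀ n, ρ n ∈ V n}

/-- the first `m` letters agree -/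
def Agr {V : ℕ → Set X} (m : ℕ) (ρ σ : Om V) : Prop := ∀ i < m, ρ.1 i = σ.1 i

/-- `φ` preserves agreement -/
def Isom {V : ℕ → Set X} (φ : Om V → Om V) : Prop := ∀ m ρ σ, Agr m ρ σ → Agr m (φ ρ) (φ σ)

/-- a letter in front -/
def consO {V : ℕ → Set X} (x : X) (hx : x ∈ V 0) (τ : Om (sh V)) : Om V :=
  ⟨fun n => Nat.casesOn n x τ.1, fun n => by cases n with
    | zero => exact hx
    | succ n => exact τ.2 n⟩

/-- forget the first letter -/
def shO {V : ℕ → Set X} (τ : Om V) : Om (sh V) := ⟨sh τ.1, fun n => τ.2 (n + 1)⟩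

theorem consO_zero {V : ℕ → Set X} {x : X} (hx : x ∈ V 0) (τ : Om (sh V)) :
    (consO x hx τ).1 0 = x := rfl

theorem shO_consO {V : ℕ → Set X} {x : X} (hx : x ∈ V 0) (τ : Om (sh V)) :
    shO (consO x hx τ) = τ := rfl

theorem consO_shO {V : ℕ → Set X} (τ : Om V) {x : X} (hx : x ∈ V 0) (h : τ.1 0 = x) :
    consO x hx (shO τ) = τ := by
  apply Subtype.ext
  funext n
  cases n with
  | zero => exact h.symm
  | succ n => rfl

/-- the first letter of the images of the points that begin with `x` -/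
def rtO {V : ℕ → Set X} (ω : Om V) (φ : Om V → Om V) (x : X) (hx : x ∈ V 0) : X :=
  (φ (consO x hx (shO ω))).1 0

/-- the section of `φ` at `x` -/
def scO {V : ℕ → Set X} (φ : Om V → Om V) (x : X) (hx : x ∈ V 0) : Om (sh V) → Om (sh V) :=
  fun τ => shO (φ (consO x hx τ))

theorem rtO_mem {V : ℕ → Set X} (ω : Om V) (φ : Om V → Om V) (x : X) (hx : x ∈ V 0) :
    rtO ω φ x hx ∈ V 0 := (φ _).2 0

theorem agr_consO {V : ℕ → Set X} {x : X} (hx : x ∈ V 0) {m : ℕ} {σ τ : Om (sh V)}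
    (h : Agr m σ τ) : Agr (m + 1) (consO x hx σ) (consO x hx τ) := by
  intro i hi
  cases i with
  | zero => rfl
  | succ i => exact h i (by omega)

theorem agr_shO {V : ℕ → Set X} {m : ℕ} {σ τ : Om V} (h : Agr (m + 1) σ τ) :
    Agr m (shO σ) (shO τ) := fun i hi => h (i + 1) (by omega)

theorem rtO_eq {V : ℕ → Set X} (ω : Om V) {φ : Om V → Om V} (hφ : Isom φ) (x : X) (hx : x ∈ V 0)
    (τ : Om (sh V)) : (φ (consO x hx τ)).1 0 = rtO ω φ x hx :=
  hφ 1 _ _ (agr_consO (m := 0) hx (fun i hi => absurd hi (by omega))) 0 (by omega)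

theorem isom_scO {V : ℕ → Set X} {φ : Om V → Om V} (hφ : Isom φ) (x : X) (hx : x ∈ V 0) :
    Isom (scO φ x hx) := fun m _ _ h => agr_shO (hφ (m + 1) _ _ (agr_consO hx h))

/-- action on words -/
noncomputable def actO : List X → ∀ (V : ℕ → Set X), Om V → (Om V → Om V) → List X
  | [], _, _, _ => []
  | x :: v, V, ω, φ => if hx : x ∈ V 0 then
      rtO ω φ x hx :: actO v (sh V) (shO ω) (scO φ x hx) else x :: v

theorem actO_nil (V : ℕ → Set X) (ω : Om V) (φ : Om V → Om V) : actO [] V ω φ = [] := by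
  rw [actO]

theorem actO_in (x : X) (v : List X) (V : ℕ → Set X) (ω : Om V) (φ : Om V → Om V) (hx : x ∈ V 0) :
    actO (x :: v) V ω φ = rtO ω φ x hx :: actO v (sh V) (shO ω) (scO φ x hx) := by
  rw [actO, dif_pos hx]

theorem actO_out (x : X) (v : List X) (V : ℕ → Set X) (ω : Om V) (φ : Om V → Om V)
    (hx : x ∉ V 0) : actO (x :: v) V ω φ = x :: v := by
  rw [actO, dif_neg hx]

theorem actO_inv (v : List X) : ∀ (V : ℕ → Set X) (ω : Om V) (φ ψ : Om V → Om V), Isom φ →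
    Isom ψ → (∀ ρ, ψ (φ ρ) = ρ) → actO (actO v V ω φ) V ω ψ = v := by
  induction v with
  | nil => intro V ω φ ψ _ _ _; rw [actO_nil, actO_nil]
  | cons x v ih =>
    intro V ω φ ψ hφ hψ h
    by_cases hx : x ∈ V 0
    · rw [actO_in x v V ω φ hx, actO_in _ _ V ω ψ (rtO_mem ω φ x hx)]
      have h1 : ∀ τ, φ (consO x hx τ) = consO (rtO ω φ x hx) (rtO_mem ω φ x hx)
          (scO φ x hx τ) := fun τ => (consO_shO _ _ (rtO_eq ω hφ x hx τ)).symm
      have h2 : rtO ω ψ (rtO ω φ x hx) (rtO_mem ω φ x hx) = x := by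
        rw [← rtO_eq ω hψ _ _ (scO φ x hx (shO ω)), ← h1, h]
        rfl
      have h3 : ∀ τ, scO ψ (rtO ω φ x hx) (rtO_mem ω φ x hx) (scO φ x hx τ) = τ := by
        intro τ
        rw [scO, ← h1, h, shO_consO]
      rw [h2, ih (sh V) (shO ω) _ _ (isom_scO hφ x hx) (isom_scO hψ _ _) h3]
    · rw [actO_out x v V ω φ hx, actO_out x v V ω ψ hx]

theorem length_actO (v : List X) : ∀ (V : ℕ → Set X) (ω : Om V) (φ : Om V → Om V),
    (actO v V ω φ).length = v.length := by
  induction v with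
  | nil => intro V ω φ; rw [actO_nil]
  | cons x v ih =>
    intro V ω φ
    by_cases hx : x ∈ V 0
    · rw [actO_in x v V ω φ hx, List.length_cons, List.length_cons, ih]
    · rw [actO_out x v V ω φ hx]

theorem pfx_actO (v w : List X) : ∀ (V : ℕ → Set X) (ω : Om V) (φ : Om V → Om V),
    actO v V ω φ <+: actO (v ++ w) V ω φ := by
  induction v with
  | nil => intro V ω φ; rw [actO_nil]; exact List.nil_prefix
  | cons x v ih =>
    intro V ω φ
    by_cases hx : x ∈ V 0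
    · rw [List.cons_append, actO_in x v V ω φ hx, actO_in x _ V ω φ hx, List.cons_prefix_cons]
      exact ⟨rfl, ih _ _ _⟩
    · rw [List.cons_append, actO_out x v V ω φ hx, actO_out x _ V ω φ hx, List.cons_prefix_cons]
      exact ⟨rfl, List.prefix_append v w⟩

/-- the automorphism of the tree given by an isometry -/
noncomputable def toT {V : ℕ → Set X} (ω : Om V) (φ ψ : Om V → Om V) (hφ : Isom φ) (hψ : Isom ψ)
    (h : ∀ ρ, ψ (φ ρ) = ρ) (h' : ∀ ρ, φ (ψ ρ) = ρ) : T X :=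
  ⟨{ toFun := fun v => actO v V ω φ
     invFun := fun v => actO v V ω ψ
     left_inv := fun v => actO_inv v V ω φ ψ hφ hψ h
     right_inv := fun v => actO_inv v V ω ψ φ hψ hφ h' },
    fun v => length_actO v V ω φ, fun v w => pfx_actO v w V ω φ⟩

theorem actO_append (v : List X) : ∀ (V : ℕ → Set X) (ω : Om V) (φ : Om V → Om V) (x : X)
    (w : List X), x ∉ V v.length → actO (v ++ x :: w) V ω φ = actO v V ω φ ++ x :: w := by
  induction v with
  | nil =>
    intro V ω φ x w hx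
    rw [List.nil_append, actO_nil, List.nil_append, actO_out x w V ω φ hx]
  | cons y v ih =>
    intro V ω φ x w hx
    by_cases hy : y ∈ V 0
    · rw [List.cons_append, actO_in y _ V ω φ hy, actO_in y v V ω φ hy, ih _ _ _ x w hx]
      rfl
    · rw [List.cons_append, actO_out y _ V ω φ hy, actO_out y v V ω φ hy]
      rfl

theorem actO_pre (n : ℕ) : ∀ (V : ℕ → Set X) (ω : Om V) (φ : Om V → Om V), Isom φ → ∀ ρ : Om V,
    actO (pre ρ.1 n) V ω φ = pre (φ ρ).1 n := by
  induction n with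
  | zero => intro V ω φ _ ρ; rw [pre_zero, pre_zero, actO_nil]
  | succ n ih =>
    intro V ω φ hφ ρ
    have h1 : consO (ρ.1 0) (ρ.2 0) (shO ρ) = ρ := consO_shO ρ _ rfl
    rw [pre_succ, pre_succ, actO_in _ _ V ω φ (ρ.2 0)]
    have h2 := ih (sh V) (shO ω) (scO φ (ρ.1 0) (ρ.2 0)) (isom_scO hφ _ _) (shO ρ)
    have h3 : (shO ρ).1 = sh ρ.1 := rfl
    rw [← h3, h2, scO, h1, ← rtO_eq ω hφ _ _ (shO ρ), h1]
    rfl

theorem pre_inj {ρ σ : ℕ → X} {n : ℕ} (h : pre ρ n = pre σ n) : ∀ i < n, ρ i = σ i := by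
  induction n generalizing ρ σ with
  | zero => intro i hi; omega
  | succ n ih =>
    rw [pre_succ, pre_succ] at h
    intro i hi
    cases i with
    | zero => exact (List.cons.inj h).1
    | succ i => exact ih (List.cons.inj h).2 i (by omega)

theorem pre_congr {ρ σ : ℕ → X} {n : ℕ} (h : ∀ i < n, ρ i = σ i) : pre ρ n = pre σ n := by
  induction n generalizing ρ σ with
  | zero => rfl
  | succ n ih =>
    have h1 : pre (sh ρ) n = pre (sh σ) n := ih (ρ := sh ρ) (σ := sh σ) fun i hi => h (i + 1) (by omega)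
    rw [pre_succ, pre_succ, h 0 (by omega), h1]

theorem img_agree (g : T X) {ξ η : ℕ → X} {k : ℕ} (h : ∀ i < k, ξ i = η i) :
    ∀ i < k, img g ξ i = img g η i := by
  apply pre_inj
  rw [← apply_pre, ← apply_pre, pre_congr h]

/-- isometries come from automorphisms -/
theorem exists_T {V : ℕ → Set X} (ω : Om V) (φ ψ : Om V → Om V) (hφ : Isom φ) (hψ : Isom ψ)
    (h : ∀ ρ, ψ (φ ρ) = ρ) (h' : ∀ ρ, φ (ψ ρ) = ρ) :
    ∃ t : T X, t ∈ Tm V ∧ ∀ ρ : Om V, img t ρ.1 = (φ ρ).1 := by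
  refine ⟨toT ω φ ψ hφ hψ h h', fun v x w hx => actO_append v V ω φ x w hx, fun ρ => ?_⟩
  funext n
  have h1 := apply_pre (toT ω φ ψ hφ hψ h h') ρ.1 (n + 1)
  have h2 : (toT ω φ ψ hφ hψ h h').1 (pre ρ.1 (n + 1)) = pre (φ ρ).1 (n + 1) :=
    actO_pre (n + 1) V ω φ hφ ρ
  exact (pre_inj (h2.symm.trans h1) n (by omega)).symm

theorem root_mem' {V : ℕ → Set X} {g : T X} (hg : g ∈ Tm V) {x : X} (hx : x ∈ V 0) :
    root g x ∈ V 0 := Pool.Agent.Y473.SP.root_mem hg hx

theorem img_valid (n : ℕ) : ∀ (V : ℕ → Set X) (g : T X) (ξ : ℕ → X), g ∈ Tm V →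
    (∀ i, ξ i ∈ V i) → img g ξ n ∈ V n := by
  induction n with
  | zero => exact fun V g ξ hg h => root_mem' hg (h 0)
  | succ n ih =>
    intro V g ξ hg h
    exact ih (sh V) (sec g (ξ 0)) (sh ξ) (sec_Tm hg _) (fun i => h (i + 1))

/-- an automorphism is determined by the action on the rays -/
theorem eq_of_img (v : List X) : ∀ (V : ℕ → Set X) (_ : Om V) (g h : T X), g ∈ Tm V → h ∈ Tm V →
    (∀ ρ : Om V, img g ρ.1 = img h ρ.1) → g.1 v = h.1 v := by
  induction v with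
  | nil => intro V ω g h _ _ _; rw [nil_eq, nil_eq]
  | cons x v ih =>
    intro V ω g h hg hh hgh
    rw [cons_eq, cons_eq]
    by_cases hx : x ∈ V 0
    · have h1 : ∀ τ : Om (sh V), root g x = root h x ∧
          img (sec g x) τ.1 = img (sec h x) τ.1 := by
        intro τ
        have h2 := hgh (consO x hx τ)
        exact ⟨congrFun h2 0, congrArg sh h2⟩
      rw [(h1 (shO ω)).1, ih (sh V) (shO ω) _ _ (sec_Tm hg x) (sec_Tm hh x) fun τ => (h1 τ).2]
    · rw [root_Tm hg hx, root_Tm hh hx, sec_Tm_one hg hx, sec_Tm_one hh hx]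

theorem Tm_ext {V : ℕ → Set X} (ω : Om V) {g h : T X} (hg : g ∈ Tm V) (hh : h ∈ Tm V)
    (hgh : ∀ ρ : Om V, img g ρ.1 = img h ρ.1) : g = h :=
  Subtype.ext (Equiv.ext fun v => eq_of_img v V ω g h hg hh hgh)

end Q30.GG
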