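import Pool.Agent.Y524S.Fin
import Pool.Agent.Y907.SP.Wrs
import Pool.Agent.Y473.SP.FV
import Pool.Agent.Y331.SP524.Limn
import Pool.Agent.Y179.SS.Free
import Pool.Agent.Q30.FJ.GrP

/-!
# Rays of the tree of words and automorphisms directed along a ray
-/

set_option autoImplicit false

open Classical

namespace Q30.GG

open Pool.Agent.Y462.SS Pool.Agent.Y524L Pool.Agent.Y524S Pool.Agent.Y331.SS

variable {X : Type}

/-- the word of the first `n` letters of a ray -/
def pre : (ℕ → X) → ℕ → List X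
  | _, 0 => []
  | ρ, n + 1 => ρ 0 :: pre (sh ρ) n

theorem pre_zero (ρ : ℕ → X) : pre ρ 0 = [] := by rw [pre]
theorem pre_succ (ρ : ℕ → X) (n : ℕ) : pre ρ (n + 1) = ρ 0 :: pre (sh ρ) n := by rw [pre]

theorem pre_snoc (ρ : ℕ → X) (n : ℕ) : pre ρ (n + 1) = pre ρ n ++ [ρ n] := by
  induction n generalizing ρ with
  | zero => rfl
  | succ n ih => rw [pre_succ, ih, pre_succ ρ n]; rfl

theorem length_pre (ρ : ℕ → X) (n : ℕ) : (pre ρ n).length = n := by
  induction n generalizing ρ with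
  | zero => rfl
  | succ n ih => rw [pre_succ, List.length_cons, ih]

theorem pre_eq_ofFn (ρ : ℕ → X) (n : ℕ) : pre ρ n = List.ofFn (fun i : Fin n => ρ i) := by
  induction n generalizing ρ with
  | zero => rfl
  | succ n ih => rw [pre_succ, ih, List.ofFn_succ]; rfl

theorem onRay_iff (ρ : ℕ → X) (v : List X) : OnRay ρ v ↔ v = pre ρ v.length := by
  rw [OnRay, pre_eq_ofFn]

/-- the `n`-th letter of the image of a ray -/
def im : ℕ → T X → (ℕ → X) → X
  | 0, g, ξ => root g (ξ 0)
  | n + 1, g, ξ => im n (sec g (ξ 0)) (sh ξ)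

/-- the image of a ray -/
def img (g : T X) (ξ : ℕ → X) : ℕ → X := fun n => im n g ξ

theorem img_zero (g : T X) (ξ : ℕ → X) : img g ξ 0 = root g (ξ 0) := rfl
theorem sh_img (g : T X) (ξ : ℕ → X) : sh (img g ξ) = img (sec g (ξ 0)) (sh ξ) := rfl

theorem img_one (ξ : ℕ → X) : img 1 ξ = ξ := by
  funext n
  induction n generalizing ξ with
  | zero => rw [img_zero, root_one]; rfl
  | succ n ih =>
    change img (sec 1 (ξ 0)) (sh ξ) n = sh ξ n
    rw [sec_one, ih]

theorem img_mul (g h : T X) (ξ : ℕ → X) : img (g * h) ξ = img g (img h ξ) := by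
  funext n
  induction n generalizing g h ξ with
  | zero => rw [img_zero, root_mul]; rfl
  | succ n ih =>
    change img (sec (g * h) (ξ 0)) (sh ξ) n = img (sec g (root h (ξ 0))) (img (sec h (ξ 0)) (sh ξ)) n
    rw [sec_mul, ih]

theorem img_inv (g : T X) (ξ : ℕ → X) : img g⁻¹ (img g ξ) = ξ := by
  rw [← img_mul, inv_mul_cancel, img_one]

theorem apply_pre (g : T X) (ξ : ℕ → X) (n : ℕ) : g.1 (pre ξ n) = pre (img g ξ) n := by
  induction n generalizing g ξ with
  | zero => rw [pre_zero, pre_zero, nil_eq]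
  | succ n ih => rw [pre_succ, cons_eq, pre_succ, ih]; rfl

theorem img_apply (g : T X) (ξ : ℕ → X) (n : ℕ) :
    img g ξ n = root (secW g (pre ξ n)) (ξ n) := by
  induction n generalizing g ξ with
  | zero => rfl
  | succ n ih => exact ih (sec g (ξ 0)) (sh ξ)

/-- finite depth off the ray -/
def Off (d : T X) (ξ : ℕ → X) : Prop := ∀ n x, x ≠ ξ n → sec (secW d (pre ξ n)) x ∈ Fn X

theorem off_zero {d : T X} {ξ : ℕ → X} (h : Off d ξ) {x : X} (hx : x ≠ ξ 0) : sec d x ∈ Fn X :=
  h 0 x hx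

theorem off_sec {d : T X} {ξ : ℕ → X} (h : Off d ξ) : Off (sec d (ξ 0)) (sh ξ) :=
  fun n x hx => h (n + 1) x hx

theorem off_one (ξ : ℕ → X) : Off 1 ξ := by
  intro n x _
  rw [secW_one, sec_one]
  exact one_mem _

theorem off_mul {d e : T X} {ξ : ℕ → X} (hd : Off d ξ) (he : Off e (img d ξ)) :
    Off (e * d) ξ := by
  intro n x hx
  rw [secW_mul, sec_mul, apply_pre]
  refine mul_mem (he n _ ?_) (hd n x hx)
  rw [img_apply]
  exact fun h => hx ((root _).injective h)

theorem off_inv {d : T X} {ξ : ℕ → X} (hd : Off d ξ) : Off d⁻¹ (img d ξ) := by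
  intro n x hx
  rw [← apply_pre, secW_inv, sec_inv]
  refine inv_mem (hd n _ ?_)
  intro h
  apply hx
  rw [img_apply, ← h]
  exact ((root _).apply_symm_apply x).symm

/-- automorphisms of finite depth have finite depth off every ray -/
theorem off_of_Fn {d : T X} (h : d ∈ Fn X) (ξ : ℕ → X) : Off d ξ := by
  intro n x _
  have h1 : ∀ (v : List X) (g : T X), g ∈ Fn X → secW g v ∈ Fn X := by
    intro v
    induction v with
    | nil => exact fun g hg => hg
    | cons y v ih =>
      intro g hg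
      refine ih (sec g y) ?_
      obtain ⟨k, hk⟩ := hg
      exact ⟨k, isDep_sec hk y⟩
  obtain ⟨k, hk⟩ := h1 (pre ξ n) d h
  exact ⟨k, isDep_sec hk x⟩

end Q30.GG
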